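import Pool.Agent.Helper76.SNC.StepDE
import Pool.Agent.Helper76.SNW.StepAB

/-!
# The cut for the weighted order
-/

namespace Pool.Agent.Helper76.SNW

open Finset Pool.Agent.Helper76.SNC

set_option linter.unusedSectionVars false

variable {V : Type*} [Fintype V] [DecidableEq V]

/-- Sums over pairs of half-graph shape, from bounds on rectangles. -/
theorem halfw {D : V → V → Prop} {w : V → V → ℝ} {T : V → ℕ} (hG : GoodW D w T) (φ : V → V → ℝ)
    (Φ : ℝ) (hΦ : 0 ≤ Φ) (hφ : ∀ u v, φ u v ≤ Φ) (m : ℕ) (δ : ℝ) (lo lo' : V → Prop)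
    (hJ : ∀ A B : Finset V, (∀ a ∈ A, T a < m ∧ lo a) → (∀ b ∈ B, T b < m ∧ lo' b) →
      ∑ v ∈ A, ∑ x ∈ B, φ v x ≤ δ)
    (S Z : Finset V) (hS : ∀ x ∈ S, T x < m ∧ lo' x) (hZ : ∀ x ∈ Z, T x < m ∧ lo x)
    (c b q : ℕ) (hb : 1 ≤ b) (hbq : m ≤ b * q) :
    ∑ z ∈ Z, ∑ x ∈ S.filter (fun x => T z < T x ∧ T x < c), φ z x ≤ q * δ + Φ * b * Z.card := by
  classical
  have hmap : ∀ z ∈ Z, T z / b ∈ range q := by
    intro z hz
    rw [mem_range]
    apply Nat.div_lt_of_lt_mul
    exact lt_of_lt_of_le (hZ z hz).1 hbq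
  rw [← sum_fiberwise_of_maps_to hmap]
  have hkey : ∀ i ∈ range q, ∑ z ∈ Z.filter (fun z => T z / b = i),
      ∑ x ∈ S.filter (fun x => T z < T x ∧ T x < c), φ z x ≤
      δ + Φ * b * (Z.filter (fun z => T z / b = i)).card := by
    intro i _
    set Zi := Z.filter (fun z => T z / b = i) with hZi
    let Si : Finset V := S.filter (fun x => b * (i + 1) ≤ T x ∧ T x < c)
    have hJ1 := hJ Zi Si
      (fun x hx => hZ x (mem_of_mem_filter x hx))
      (fun x hx => hS x (mem_of_mem_filter x hx))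
    have hloc : ∀ z ∈ Zi, ∑ x ∈ S.filter (fun x => T z < T x ∧ T x < c), φ z x ≤
        ∑ x ∈ Si, φ z x + Φ * b := by
      intro z hz
      simp only [hZi, mem_filter] at hz
      have hz1 : b * i ≤ T z := by
        rw [← hz.2]
        exact Nat.mul_div_le _ _
      have hz2 : T z < b * (i + 1) := by
        rw [← hz.2]
        exact Nat.lt_mul_div_succ _ (by omega)
      let R : Finset V := S.filter (fun x => T z < T x ∧ T x < c ∧ T x < b * (i + 1))
      have e1 : S.filter (fun x => T z < T x ∧ T x < c) = Si ∪ R := by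
        ext x
        simp only [mem_filter, mem_union, Si, R]
        constructor
        · rintro ⟨h1, h2, h3⟩
          rcases lt_or_ge (T x) (b * (i + 1)) with h4 | h4
          · exact Or.inr ⟨h1, h2, h3, h4⟩
          · exact Or.inl ⟨h1, h4, h3⟩
        · rintro (⟨h1, h2, h3⟩ | ⟨h1, h2, h3, h4⟩)
          · exact ⟨h1, by omega, h3⟩
          · exact ⟨h1, h2, h3⟩
      have e2 : Disjoint Si R := by
        rw [Finset.disjoint_left]
        intro x h1 h2
        simp only [mem_filter, Si, R] at h1 h2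
        omega
      have e3 : (R.card : ℝ) ≤ b := by
        have h1 : R ⊆ (univ : Finset V).filter (fun x => b * i ≤ T x ∧ T x < b * (i + 1)) := by
          intro x hx
          simp only [mem_filter, mem_univ, true_and, R] at hx ⊢
          omega
        have h2 := (card_le_card h1).trans (hG.card_Ico_le (b * i) (b * (i + 1)))
        have h3 : b * (i + 1) - b * i = b := by
          rw [Nat.mul_succ]
          omega
        rw [h3] at h2
        exact_mod_cast h2
      have e5 : ∑ x ∈ R, φ z x ≤ Φ * b := by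
        have := sum_le_sum (fun x (_ : x ∈ R) => hφ z x)
        rw [sum_const, nsmul_eq_mul] at this
        have h4 : (R.card : ℝ) * Φ ≤ b * Φ := mul_le_mul_of_nonneg_right e3 hΦ
        linarith
      rw [e1, sum_union e2]
      linarith
    have h1 := sum_le_sum hloc
    rw [sum_add_distrib, sum_const, nsmul_eq_mul] at h1
    linarith
  refine (sum_le_sum hkey).trans ?_
  rw [sum_add_distrib, sum_const, nsmul_eq_mul, card_range, ← mul_sum]
  have h1 : ∑ i ∈ range q, ((Z.filter (fun z => T z / b = i)).card : ℝ) = Z.card := by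
    have := card_eq_sum_card_fiberwise hmap
    rw [this]
    push_cast
    rfl
  rw [h1]


open Classical in
set_option maxHeartbeats 2000000 in
theorem stepDEw {D : V → V → Prop} {w : V → V → ℝ}
    {T : V → ℕ} (hG : GoodW D w T) (has : ∀ u v, D u v → ¬ D v u) {p Q ε ε₃ m0 r κ : ℝ}
    (hw : Wts w p Q) (hp : 0 < p) (hpQ : p ≤ Q) (hp1 : p ≤ 1) (hQ2 : Q ≤ 2) (hJ : JL D p ε m0)
    (hε : 0 ≤ ε) (m : ℕ) (hm0 : m0 ≤ m) (hmn : m ≤ Fintype.card V) (hκ : 0 < κ) (hr : 0 < r)
    (lo : V → Prop)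
    (hN : ∀ A B : Finset V, (∀ a ∈ A, T a < m ∧ lo a) → (∀ b ∈ B, T b < m ∧ lo b) →
      |∑ a ∈ A, ∑ b ∈ B, (w a b * dg D a b - 1)| ≤ ε₃ * m ^ 2)
    (X : Finset V) (hX : ∀ x ∈ X, T x < m ∧ lo x)
    (hU : ∀ u, T u < m → r * m ≤ ∑ x ∈ X, ar D x u → lo u ∧ ∀ z, D u z → lo z)
    (b q : ℕ) (hb : 1 ≤ b) (hbq : m ≤ b * q) (h1 : ε + 2 * r ≤ p * κ ^ 2)
    (h2 : 2 * (q * (ε₃ * m ^ 2)) + 4 / p * (b * m) + 1 / p * (q * (ε * m ^ 2)) +
      4 / p * (r * m * m) ≤ p / 2 * κ ^ 2 * m ^ 2) (h3 : 2 ≤ κ * m) :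
    ∃ t : ℕ, t ≤ m ∧ 2 * ((X.filter (fun x => t ≤ T x)).card : ℝ) + t ≤
      (Us D T m r X).card + 8 * (κ * m) ∧
      (((univ : Finset V).filter (fun z => T z < t ∧ ¬ lo z)).card : ℝ) ≤ 2 * (κ * m) := by
  have hQ0 : 0 < Q := lt_of_lt_of_le hp hpQ
  set Z := Zs D T m r X with hZdef
  set U := Us D T m r X with hUdef
  have hmpos : (0 : ℝ) < m := by
    by_contra hc
    push Not at hc
    nlinarith
  have hw0 : ∀ u v, 0 ≤ w u v := fun u v => le_trans (by positivity) (hw.lo u v)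
  have hwr0 : ∀ u v, 0 ≤ wr D w u v := fun u v => mul_nonneg (hw0 u v) (ar_nonneg D u v)
  have hZm' : ∀ z, z ∈ Z ↔ (T z < m ∧ ∑ x ∈ X, ar D x z < r * m) := by
    intro z
    simp [hZdef, Zs]
  have hUm : ∀ z, z ∈ U ↔ (T z < m ∧ r * m ≤ ∑ x ∈ X, ar D x z) := by
    intro z
    simp [hUdef, Us]
  have hUlo : ∀ u ∈ U, lo u := fun u hu => (hU u ((hUm u).1 hu).1 ((hUm u).1 hu).2).1
  have hUout : ∀ u ∈ U, ∀ z, D u z → lo z := fun u hu => (hU u ((hUm u).1 hu).1 ((hUm u).1 hu).2).2
  have hcardm : ∀ A : Finset V, (∀ x ∈ A, T x < m) → (A.card : ℝ) ≤ m := by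
    intro A hA
    have h1 : A ⊆ (univ : Finset V).filter (fun x => T x < m) := by
      intro x hx
      simp only [mem_filter, mem_univ, true_and]
      exact hA x hx
    exact_mod_cast (card_le_card h1).trans (hG.card_lt_le m)
  have hκm0 : 0 < κ * m := by positivity
  -- |X ∩ Z| is small
  have hXZ : ((X.filter (fun x => x ∈ Z)).card : ℝ) ≤ κ * m := by
    set A := X.filter (fun x => x ∈ Z) with hA
    have hAm : (A.card : ℝ) ≤ m := hcardm A (fun x hx => (hX x (mem_of_mem_filter x hx)).1)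
    have hJ1 := hJ.le hε hm0 A A hAm hAm
    have e1 : ∑ v ∈ A, ∑ x ∈ A, dg D v x = 2 * ∑ z ∈ A, ∑ x ∈ A, ar D x z := by
      have : ∑ v ∈ A, ∑ x ∈ A, ar D v x = ∑ z ∈ A, ∑ x ∈ A, ar D x z := sum_comm
      unfold dg
      simp only [sum_add_distrib]
      rw [this]
      ring
    have e2 : ∑ z ∈ A, ∑ x ∈ A, ar D x z ≤ A.card * (r * m) := by
      have : ∀ z ∈ A, ∑ x ∈ A, ar D x z ≤ r * m := by
        intro z hz
        have hz2 := ((hZm' z).1 (mem_filter.1 hz).2).2
        refine le_trans ?_ hz2.le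
        apply sum_le_sum_of_subset_of_nonneg (filter_subset _ _)
        intro x _ _
        exact ar_nonneg D x z
      have := sum_le_sum this
      rwa [sum_const, nsmul_eq_mul] at this
    have e4 : (A.card : ℝ) * (r * m) ≤ m * (r * m) :=
      mul_le_mul_of_nonneg_right hAm (by positivity)
    have e5 : p * (A.card : ℝ) ^ 2 ≤ p * (κ * m) ^ 2 := by
      have : (ε + 2 * r) * (m : ℝ) ^ 2 ≤ p * κ ^ 2 * m ^ 2 :=
        mul_le_mul_of_nonneg_right h1 (by positivity)
      nlinarith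
    have e6 : (A.card : ℝ) ^ 2 ≤ (κ * m) ^ 2 := le_of_mul_le_mul_left e5 hp
    exact le_of_sq_le_sq e6 hκm0.le
  let X' : Finset V := X.filter (fun x => x ∉ Z)
  let G : Finset V := U.filter (fun x => x ∉ X)
  have hX'U : X' ⊆ U := by
    intro x hx
    simp only [X', mem_filter] at hx
    rw [hUm]
    refine ⟨(hX x hx.1).1, ?_⟩
    by_contra hc
    push Not at hc
    exact hx.2 ((hZm' x).2 ⟨(hX x hx.1).1, hc⟩)
  have hUX'G : U = X' ∪ G := by
    ext u
    simp only [mem_union, X', G, mem_filter]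
    constructor
    · intro hu
      by_cases k : u ∈ X
      · left
        refine ⟨k, ?_⟩
        intro hc
        linarith [((hUm u).1 hu).2, ((hZm' u).1 hc).2]
      · exact Or.inr ⟨hu, k⟩
    · rintro (hu | hu)
      · exact hX'U (by simp only [X', mem_filter]; exact hu)
      · exact hu.1
  have hX'Gd : Disjoint X' G := by
    rw [Finset.disjoint_left]
    intro x k1 k2
    simp only [mem_filter, X', G] at k1 k2
    exact k2.2 k1.1
  have hX'm : ∀ x ∈ X', T x < m ∧ lo x := fun x hx => hX x (mem_of_mem_filter x hx)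
  have hGm : ∀ x ∈ G, T x < m ∧ lo x := fun x hx =>
    ⟨((hUm x).1 (mem_of_mem_filter x hx)).1, hUlo x (mem_of_mem_filter x hx)⟩
  let Δ : ℕ → ℝ := fun t => ((X'.filter (fun x => t ≤ T x)).card : ℝ) -
    ((G.filter (fun x => t ≤ T x)).card : ℝ)
  have hΔm : Δ m = 0 := by
    have e1 : X'.filter (fun x => m ≤ T x) = ∅ := by
      ext x
      simp only [mem_filter, notMem_empty, iff_false, not_and, not_le]
      exact fun hx => (hX'm x hx).1
    have e2 : G.filter (fun x => m ≤ T x) = ∅ := by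
      ext x
      simp only [mem_filter, notMem_empty, iff_false, not_and, not_le]
      exact fun hx => (hGm x hx).1
    simp only [Δ, e1, e2, card_empty, Nat.cast_zero, sub_zero]
  obtain ⟨h, hh, hmin⟩ := exists_min_image (range (m + 1)) Δ ⟨m, by simp⟩
  rw [mem_range] at hh
  have hΔh : Δ h ≤ 0 := by
    rw [← hΔm]
    exact hmin m (by simp)
  -- the block inequality
  let Z' : Finset V := Z.filter (fun z => T z < h)
  let Zl : Finset V := Z'.filter (fun z => lo z)
  let Zh : Finset V := Z'.filter (fun z => ¬ lo z)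
  have hblock := hG.block h Z' (fun z hz => (mem_filter.1 hz).2)
  let EX : V → Finset V := fun z => X'.filter (fun x => T z < T x ∧ T x < h)
  let EG : V → Finset V := fun z => G.filter (fun x => T z < T x ∧ T x < h)
  let EU : V → Finset V := fun z => U.filter (fun x => T z < T x ∧ T x < h)
  have hE : ∀ z ∈ Z', (univ : Finset V).filter (fun x => x ∉ Z' ∧ T z < T x ∧ T x < h) =
      EX z ∪ EG z := by
    intro z _
    ext x
    simp only [mem_filter, mem_univ, true_and, mem_union, EX, EG, Z']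
    constructor
    · rintro ⟨k1, k2, k3⟩
      have k4 : x ∉ Z := fun hc => k1 ⟨hc, k3⟩
      have k5 : x ∈ U := by
        rw [hUm]
        refine ⟨by omega, ?_⟩
        by_contra hc
        push Not at hc
        exact k4 ((hZm' x).2 ⟨by omega, hc⟩)
      rw [hUX'G, mem_union] at k5
      rcases k5 with k5 | k5
      · exact Or.inl ⟨k5, k2, k3⟩
      · exact Or.inr ⟨k5, k2, k3⟩
    · intro hx
      have k : x ∈ U ∧ T z < T x ∧ T x < h := by
        rw [hUX'G, mem_union]
        rcases hx with ⟨k1, k2⟩ | ⟨k1, k2⟩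
        · exact ⟨Or.inl k1, k2⟩
        · exact ⟨Or.inr k1, k2⟩
      refine ⟨fun hc => ?_, k.2.1, k.2.2⟩
      linarith [((hUm x).1 k.1).2, ((hZm' x).1 hc.1).2]
  have hdisj : ∀ z, Disjoint (EX z) (EG z) := by
    intro z
    exact disjoint_filter_filter hX'Gd
  have hEU : ∀ z, EU z = EX z ∪ EG z := by
    intro z
    simp only [EU, EX, EG]
    rw [hUX'G, filter_union]
  have hblock2 : ∑ z ∈ Z', (∑ x ∈ EX z, wr D w z x + ∑ x ∈ EG z, wr D w z x) ≤
      ∑ z ∈ Z', (∑ x ∈ EX z, wr D w x z + ∑ x ∈ EG z, wr D w x z) := by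
    have l1 : ∑ z ∈ Z', ∑ x ∈ (univ : Finset V).filter (fun x => x ∉ Z' ∧ T z < T x ∧ T x < h),
        wr D w z x = ∑ z ∈ Z', (∑ x ∈ EX z, wr D w z x + ∑ x ∈ EG z, wr D w z x) :=
      sum_congr rfl (fun z hz => by rw [hE z hz, sum_union (hdisj z)])
    have l2 : ∑ z ∈ Z', ∑ x ∈ (univ : Finset V).filter (fun x => x ∉ Z' ∧ T z < T x ∧ T x < h),
        wr D w x z = ∑ z ∈ Z', (∑ x ∈ EX z, wr D w x z + ∑ x ∈ EG z, wr D w x z) :=
      sum_congr rfl (fun z hz => by rw [hE z hz, sum_union (hdisj z)])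
    rw [← l1, ← l2]
    exact hblock
  have hin : ∀ z ∈ Z', ∑ x ∈ EX z, wr D w x z ≤ 2 / p * (r * m) := by
    intro z hz
    have hz2 := ((hZm' z).1 (mem_filter.1 hz).1).2
    have k1 : ∑ x ∈ EX z, wr D w x z ≤ ∑ x ∈ EX z, 2 / p * ar D x z := by
      apply sum_le_sum
      intro x _
      exact mul_le_mul_of_nonneg_right (hw.hi x z) (ar_nonneg D x z)
    rw [← mul_sum] at k1
    have k2 : ∑ x ∈ EX z, ar D x z ≤ r * m := by
      refine le_trans ?_ hz2.le
      apply sum_le_sum_of_subset_of_nonneg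
      · intro x hx
        exact (mem_filter.1 (mem_filter.1 hx).1).1
      · intro x _ _
        exact ar_nonneg D x z
    exact k1.trans (mul_le_mul_of_nonneg_left k2 (by positivity))
  have hhi0 : ∀ z ∈ Zh, ∑ x ∈ EG z, wr D w x z = 0 := by
    intro z hz
    have hzlo : ¬ lo z := (mem_filter.1 hz).2
    apply sum_eq_zero
    intro x hx
    have hxU : x ∈ U := (mem_filter.1 (mem_filter.1 hx).1).1
    unfold wr ar
    rw [if_neg, mul_zero]
    intro hc
    exact hzlo (hUout x hxU z hc)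
  -- abbreviations
  set fa : V → ℝ := fun z => ∑ x ∈ EX z, wr D w z x with hfa
  set fb : V → ℝ := fun z => ∑ x ∈ EX z, wr D w x z with hfb
  set fc : V → ℝ := fun z => ∑ x ∈ EG z, wr D w z x with hfc
  set fd : V → ℝ := fun z => ∑ x ∈ EG z, wr D w x z with hfd
  have hfa0 : ∀ z, 0 ≤ fa z := fun z => sum_nonneg (fun x _ => hwr0 z x)
  have hfb0 : ∀ z, 0 ≤ fb z := fun z => sum_nonneg (fun x _ => hwr0 x z)
  have hfc0 : ∀ z, 0 ≤ fc z := fun z => sum_nonneg (fun x _ => hwr0 z x)
  have hfd0 : ∀ z, 0 ≤ fd z := fun z => sum_nonneg (fun x _ => hwr0 x z)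
  have hA : ∀ z, ∑ x ∈ EX z, w z x * dg D z x = fa z + fb z := by
    intro z
    simp only [hfa, hfb]
    rw [← sum_add_distrib]
    apply sum_congr rfl
    intro x _
    unfold wr dg
    rw [hw.symm x z]
    ring
  have hC : ∀ z, ∑ x ∈ EG z, w z x * dg D z x = fc z + fd z := by
    intro z
    simp only [hfc, hfd]
    rw [← sum_add_distrib]
    apply sum_congr rfl
    intro x _
    unfold wr dg
    rw [hw.symm x z]
    ring
  have hsplit : ∀ g : V → ℝ, ∑ z ∈ Z', g z = ∑ z ∈ Zl, g z + ∑ z ∈ Zh, g z := by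
    intro g
    exact (sum_filter_add_sum_filter_not Z' (fun z => lo z) g).symm
  have hZ'm : (Z'.card : ℝ) ≤ m :=
    hcardm Z' (fun x hx => ((hZm' x).1 (mem_filter.1 hx).1).1)
  have hcards : (Z'.card : ℝ) = Zl.card + Zh.card := by
    have := hsplit (fun _ => 1)
    simpa using this
  have hZl0 : (0 : ℝ) ≤ Zl.card := Nat.cast_nonneg _
  have hZh0 : (0 : ℝ) ≤ Zh.card := Nat.cast_nonneg _
  have hfbsum : ∑ z ∈ Z', fb z ≤ 2 / p * (r * m) * m := by
    have k1 := sum_le_sum hin
    rw [sum_const, nsmul_eq_mul] at k1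
    have k2 : (Z'.card : ℝ) * (2 / p * (r * m)) ≤ m * (2 / p * (r * m)) :=
      mul_le_mul_of_nonneg_right hZ'm (by positivity)
    have k3 : ∑ z ∈ Z', fb z ≤ (Z'.card : ℝ) * (2 / p * (r * m)) := k1
    linarith
  have hkey : ∑ z ∈ Zl, (fa z + fb z) + ∑ z ∈ Zh, ((fa z + fb z) + (fc z + fd z)) ≤
      ∑ z ∈ Zl, (fc z + fd z) + 4 / p * (r * m * m) := by
    have k1 : ∑ z ∈ Z', (fa z + fc z) ≤ ∑ z ∈ Z', (fb z + fd z) := hblock2
    rw [hsplit, hsplit] at k1
    have k2 : ∑ z ∈ Zh, fd z = 0 := sum_eq_zero (fun z hz => hhi0 z hz)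
    have k3 := hfbsum
    rw [hsplit] at k3
    have k4 : 0 ≤ ∑ z ∈ Zl, fc z := sum_nonneg (fun z _ => hfc0 z)
    simp only [sum_add_distrib] at k1 ⊢
    have k5 : 2 * (2 / p * (r * m) * (m : ℝ)) = 4 / p * (r * m * m) := by ring
    linarith
  -- half-graph sums
  have hZlm : ∀ z ∈ Zl, T z < m ∧ lo z := by
    intro z hz
    simp only [Zl, Z', mem_filter] at hz
    exact ⟨((hZm' z).1 hz.1.1).1, hz.2⟩
  have hh1 := halfw hG (fun u v => 1 - w u v * dg D u v) 1 (by norm_num)
    (fun u v => by linarith [mul_nonneg (hw0 u v) (dg_nonneg D u v)]) m (ε₃ * m ^ 2) lo lo (by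
      intro A B hA hB
      have := (abs_le.1 (hN A B hA hB)).1
      simp only [sum_sub_distrib, sum_const, nsmul_eq_mul, mul_one] at this ⊢
      linarith) X' Zl hX'm hZlm h b q hb hbq
  have hh2 := halfw hG (fun u v => w u v * dg D u v - 1) (2 / p) (by positivity)
    (fun u v => by
      have := mul_le_mul (hw.hi u v) (dg_le_one has u v) (dg_nonneg D u v) (by positivity)
      linarith) m (ε₃ * m ^ 2) lo lo (by
      intro A B hA hB
      exact (abs_le.1 (hN A B hA hB)).2) G Zl hGm hZlm h b q hb hbq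
  have hh3 := halfw hG (fun u v => p - dg D u v) 1 (by norm_num)
    (fun u v => by linarith [dg_nonneg D u v]) m (ε * m ^ 2) (fun _ => True) (fun _ => True) (by
      intro A B hA hB
      have := hJ.le hε hm0 A B (hcardm A (fun a ha => (hA a ha).1))
        (hcardm B (fun a ha => (hB a ha).1))
      simp only [sum_sub_distrib, sum_const, nsmul_eq_mul]
      linarith) U Zh (fun x hx => ⟨((hUm x).1 hx).1, trivial⟩)
    (fun z hz => ⟨((hZm' z).1 (mem_filter.1 (mem_filter.1 hz).1).1).1, trivial⟩) h b q hb hbq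
  have g1 : ∑ z ∈ Zl, ((EX z).card : ℝ) - ∑ z ∈ Zl, (fa z + fb z) ≤
      q * (ε₃ * m ^ 2) + b * Zl.card := by
    rw [← sum_sub_distrib]
    refine le_trans (le_of_eq ?_) (hh1.trans (le_of_eq (by ring)))
    apply sum_congr rfl
    intro z _
    rw [← hA z]
    show _ = ∑ x ∈ EX z, (1 - w z x * dg D z x)
    rw [sum_sub_distrib, sum_const, nsmul_eq_mul, mul_one]
  have g2 : ∑ z ∈ Zl, (fc z + fd z) - ∑ z ∈ Zl, ((EG z).card : ℝ) ≤
      q * (ε₃ * m ^ 2) + 2 / p * b * Zl.card := by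
    rw [← sum_sub_distrib]
    refine le_trans (le_of_eq ?_) hh2
    apply sum_congr rfl
    intro z _
    rw [← hC z]
    show _ = ∑ x ∈ EG z, (w z x * dg D z x - 1)
    rw [sum_sub_distrib, sum_const, nsmul_eq_mul, mul_one]
  have g3 : p * ∑ z ∈ Zh, ((EU z).card : ℝ) - ∑ z ∈ Zh, ∑ x ∈ EU z, dg D z x ≤
      q * (ε * m ^ 2) + b * Zh.card := by
    rw [mul_sum, ← sum_sub_distrib]
    refine le_trans (le_of_eq ?_) (hh3.trans (le_of_eq (by ring)))
    apply sum_congr rfl
    intro z _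
    show _ = ∑ x ∈ EU z, (p - dg D z x)
    rw [sum_sub_distrib, sum_const, nsmul_eq_mul]
    ring
  have g4 : 1 / Q * ∑ z ∈ Zh, ∑ x ∈ EU z, dg D z x ≤
      ∑ z ∈ Zh, ((fa z + fb z) + (fc z + fd z)) := by
    rw [mul_sum]
    apply sum_le_sum
    intro z _
    rw [← hA z, ← hC z, hEU z, sum_union (hdisj z), mul_add, mul_sum, mul_sum]
    apply add_le_add
    · apply sum_le_sum
      intro x _
      exact mul_le_mul_of_nonneg_right (hw.lo z x) (dg_nonneg D z x)
    · apply sum_le_sum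
      intro x _
      exact mul_le_mul_of_nonneg_right (hw.lo z x) (dg_nonneg D z x)
  have hmain : (∑ z ∈ Zl, ((EX z).card : ℝ) - ∑ z ∈ Zl, ((EG z).card : ℝ)) +
      p / Q * ∑ z ∈ Zh, ((EU z).card : ℝ) ≤ p / 2 * κ ^ 2 * m ^ 2 := by
    refine le_trans ?_ h2
    have k1 := mul_le_mul_of_nonneg_left g3 (show (0 : ℝ) ≤ 1 / Q by positivity)
    have k2 : 1 / Q * (p * ∑ z ∈ Zh, ((EU z).card : ℝ) - ∑ z ∈ Zh, ∑ x ∈ EU z, dg D z x) =
        p / Q * ∑ z ∈ Zh, ((EU z).card : ℝ) - 1 / Q * ∑ z ∈ Zh, ∑ x ∈ EU z, dg D z x := by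
      ring
    rw [k2] at k1
    have k3 : 1 / Q ≤ 1 / p := one_div_le_one_div_of_le hp hpQ
    have hbZl : 0 ≤ (b : ℝ) * Zl.card := mul_nonneg (Nat.cast_nonneg _) hZl0
    have hbZh : 0 ≤ (b : ℝ) * Zh.card := mul_nonneg (Nat.cast_nonneg _) hZh0
    have k4 : 1 / Q * (q * (ε * (m : ℝ) ^ 2) + b * Zh.card) ≤
        1 / p * (q * (ε * (m : ℝ) ^ 2) + b * Zh.card) :=
      mul_le_mul_of_nonneg_right k3 (add_nonneg (by positivity) hbZh)
    have k5 : (1 : ℝ) ≤ 1 / p := by
      rw [le_div_iff₀ hp]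
      linarith
    have k6 : 1 * ((b : ℝ) * Zl.card) ≤ 1 / p * (b * Zl.card) := mul_le_mul_of_nonneg_right k5 hbZl
    have k7 : (b : ℝ) * Zl.card + b * Zh.card ≤ b * m := by
      have : (b : ℝ) * Z'.card ≤ b * m := mul_le_mul_of_nonneg_left hZ'm (Nat.cast_nonneg _)
      rw [hcards] at this
      linarith
    have k8 := mul_le_mul_of_nonneg_left k7 (show (0 : ℝ) ≤ 4 / p by positivity)
    have k9 : 4 / p * ((b : ℝ) * Zl.card + b * Zh.card) = 4 * (1 / p * (b * Zl.card)) +
        4 * (1 / p * (b * Zh.card)) := by ring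
    have k10 : 2 / p * (b : ℝ) * Zl.card = 2 * (1 / p * (b * Zl.card)) := by ring
    have k11 : 1 / p * (q * (ε * (m : ℝ) ^ 2) + b * Zh.card) =
        1 / p * (q * (ε * (m : ℝ) ^ 2)) + 1 / p * (b * Zh.card) := by ring
    have hp1' : 0 ≤ 1 / p := by positivity
    have k12 : 0 ≤ 1 / p * ((b : ℝ) * Zl.card) := mul_nonneg hp1' hbZl
    have k13 : 0 ≤ 1 / p * ((b : ℝ) * Zh.card) := mul_nonneg hp1' hbZh
    rw [k10] at g2
    rw [k9] at k8
    rw [k11] at k4
    linarith
  have hΔdiff : ∀ z ∈ Z', ((EX z).card : ℝ) - (EG z).card = Δ (T z + 1) - Δ h := by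
    intro z hz
    have hzh : T z < h := (mem_filter.1 hz).2
    have gen : ∀ A : Finset V, ((A.filter (fun x => T z + 1 ≤ T x)).card : ℝ) =
        (A.filter (fun x => T z < T x ∧ T x < h)).card + (A.filter (fun x => h ≤ T x)).card := by
      intro A
      have e : A.filter (fun x => T z + 1 ≤ T x) =
          A.filter (fun x => T z < T x ∧ T x < h) ∪ A.filter (fun x => h ≤ T x) := by
        ext x
        simp only [mem_filter, mem_union]
        constructor
        · rintro ⟨k1, k2⟩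
          rcases lt_or_ge (T x) h with k3 | k3
          · exact Or.inl ⟨k1, by omega, k3⟩
          · exact Or.inr ⟨k1, k3⟩
        · rintro (⟨k1, k2, k3⟩ | ⟨k1, k2⟩)
          · exact ⟨k1, by omega⟩
          · exact ⟨k1, by omega⟩
      have d : Disjoint (A.filter (fun x => T z < T x ∧ T x < h)) (A.filter (fun x => h ≤ T x)) := by
        rw [Finset.disjoint_left]
        intro x k1 k2
        simp only [mem_filter] at k1 k2
        omega
      rw [e, card_union_of_disjoint d]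
      push_cast
      rfl
    have g1 := gen X'
    have g2 := gen G
    show ((X'.filter (fun x => T z < T x ∧ T x < h)).card : ℝ) -
      (G.filter (fun x => T z < T x ∧ T x < h)).card =
      (((X'.filter (fun x => T z + 1 ≤ T x)).card : ℝ) - (G.filter (fun x => T z + 1 ≤ T x)).card) -
      (((X'.filter (fun x => h ≤ T x)).card : ℝ) - (G.filter (fun x => h ≤ T x)).card)
    rw [g1, g2]
    ring
  have hpos : ∀ z ∈ Zl, 0 ≤ Δ (T z + 1) - Δ h := by
    intro z hz
    have hzh : T z < h := (mem_filter.1 (mem_filter.1 hz).1).2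
    have := hmin (T z + 1) (by rw [mem_range]; omega)
    linarith
  have hlsum : ∑ z ∈ Zl, ((EX z).card : ℝ) - ∑ z ∈ Zl, ((EG z).card : ℝ) =
      ∑ z ∈ Zl, (Δ (T z + 1) - Δ h) := by
    rw [← sum_sub_distrib]
    exact sum_congr rfl (fun z hz => hΔdiff z (mem_filter.1 hz).1)
  rw [hlsum] at hmain
  have hl0 : 0 ≤ ∑ z ∈ Zl, (Δ (T z + 1) - Δ h) := sum_nonneg hpos
  have hu0 : 0 ≤ ∑ z ∈ Zh, ((EU z).card : ℝ) := sum_nonneg (fun z _ => Nat.cast_nonneg _)
  have hκ2 : 0 ≤ κ ^ 2 * (m : ℝ) ^ 2 := by positivity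
  have hlow : ∑ z ∈ Zl, (Δ (T z + 1) - Δ h) ≤ κ ^ 2 * m ^ 2 := by
    have k0 : 0 ≤ p / Q := by positivity
    have k1 : 0 ≤ p / Q * ∑ z ∈ Zh, ((EU z).card : ℝ) := mul_nonneg k0 hu0
    have k2 : p / 2 * (κ ^ 2 * (m : ℝ) ^ 2) ≤ 1 * (κ ^ 2 * m ^ 2) :=
      mul_le_mul_of_nonneg_right (by linarith) hκ2
    linarith
  have hhigh : ∑ z ∈ Zh, ((EU z).card : ℝ) ≤ κ ^ 2 * m ^ 2 := by
    have k1 : p / Q * ∑ z ∈ Zh, ((EU z).card : ℝ) ≤ p / 2 * (κ ^ 2 * m ^ 2) := by linarith
    have k2 : p / 2 ≤ p / Q := div_le_div_of_nonneg_left hp.le hQ0 hQ2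
    have k3 : p / 2 * ∑ z ∈ Zh, ((EU z).card : ℝ) ≤ p / Q * ∑ z ∈ Zh, ((EU z).card : ℝ) :=
      mul_le_mul_of_nonneg_right k2 hu0
    have k4 : p / 2 * ∑ z ∈ Zh, ((EU z).card : ℝ) ≤ p / 2 * (κ ^ 2 * m ^ 2) := k3.trans k1
    exact le_of_mul_le_mul_left k4 (by positivity)
  -- first cut
  have hex : ∃ t, Δ t ≤ Δ h + κ * m := ⟨h, by linarith⟩
  let t1 := Nat.find hex
  have ht1 : Δ t1 ≤ Δ h + κ * m := Nat.find_spec hex
  have ht1h : t1 ≤ h := Nat.find_le (by linarith)
  have ht1min : ∀ s < t1, Δ h + κ * m < Δ s := by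
    intro s hs
    have := Nat.find_min hex hs
    push Not at this
    exact this
  have hZcut : ((Z.filter (fun z => T z + 1 < t1 ∧ lo z)).card : ℝ) ≤ κ * m := by
    set Zc := Z.filter (fun z => T z + 1 < t1 ∧ lo z) with hZc
    have hsub : Zc ⊆ Zl := by
      intro z hz
      simp only [hZc, Zl, Z', mem_filter] at hz ⊢
      exact ⟨⟨hz.1, by omega⟩, hz.2.2⟩
    have b1 : (Zc.card : ℝ) * (κ * m) ≤ ∑ z ∈ Zc, (Δ (T z + 1) - Δ h) := by
      have : ∀ z ∈ Zc, κ * m ≤ Δ (T z + 1) - Δ h := by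
        intro z hz
        have := ht1min (T z + 1) (mem_filter.1 hz).2.1
        linarith
      have := sum_le_sum this
      rwa [sum_const, nsmul_eq_mul] at this
    have b2 : ∑ z ∈ Zc, (Δ (T z + 1) - Δ h) ≤ ∑ z ∈ Zl, (Δ (T z + 1) - Δ h) :=
      sum_le_sum_of_subset_of_nonneg hsub (fun z hz _ => hpos z hz)
    have b5 : (Zc.card : ℝ) * (κ * m) ≤ (κ * m) * (κ * m) := by
      calc (Zc.card : ℝ) * (κ * m) ≤ κ ^ 2 * m ^ 2 := by linarith
        _ = (κ * m) * (κ * m) := by ring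
    exact le_of_mul_le_mul_right b5 hκm0
  have hZcut2 : ((Z.filter (fun z => T z < t1 ∧ lo z)).card : ℝ) ≤ κ * m + 1 := by
    have hsub : Z.filter (fun z => T z < t1 ∧ lo z) ⊆ Z.filter (fun z => T z + 1 < t1 ∧ lo z) ∪
        (univ : Finset V).filter (fun z => t1 - 1 ≤ T z ∧ T z < t1) := by
      intro z hz
      simp only [mem_filter, mem_union, mem_univ, true_and] at hz ⊢
      rcases lt_or_ge (T z + 1) t1 with k | k
      · exact Or.inl ⟨hz.1, k, hz.2.2⟩
      · exact Or.inr ⟨by omega, hz.2.1⟩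
    have c1 := (card_le_card hsub).trans (card_union_le _ _)
    have c2 := hG.card_Ico_le (t1 - 1) t1
    have c3 : (Z.filter (fun z => T z < t1 ∧ lo z)).card ≤
        (Z.filter (fun z => T z + 1 < t1 ∧ lo z)).card + 1 := by
      omega
    have c4 : ((Z.filter (fun z => T z < t1 ∧ lo z)).card : ℝ) ≤
        (Z.filter (fun z => T z + 1 < t1 ∧ lo z)).card + 1 := by exact_mod_cast c3
    linarith
  -- second cut
  let Pt : ℕ → Prop := fun t => ((Z.filter (fun z => T z < t ∧ ¬ lo z)).card : ℝ) ≤ κ * m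
  have hPt0 : Pt 0 := by
    have : Z.filter (fun z => T z < 0 ∧ ¬ lo z) = ∅ := by
      ext z
      simp
    show ((Z.filter (fun z => T z < 0 ∧ ¬ lo z)).card : ℝ) ≤ κ * m
    rw [this]
    simpa using hκm0.le
  let t2 := Nat.findGreatest Pt t1
  have ht2 : Pt t2 := Nat.findGreatest_spec (Nat.zero_le t1) hPt0
  have ht21 : t2 ≤ t1 := Nat.findGreatest_le t1
  have hUgap : ((U.filter (fun z => t2 ≤ T z ∧ T z < t1)).card : ℝ) ≤ κ * m + 1 := by
    rcases eq_or_lt_of_le ht21 with he | hlt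
    · have : U.filter (fun z => t2 ≤ T z ∧ T z < t1) = ∅ := by
        ext z
        simp only [mem_filter, notMem_empty, iff_false, not_and, not_lt]
        intro _ hz
        omega
      rw [this]
      simp only [card_empty, Nat.cast_zero]
      linarith
    · have hn : ¬ Pt (t2 + 1) := Nat.findGreatest_is_greatest (Nat.lt_succ_self t2) hlt
      have hn' : κ * m < ((Z.filter (fun z => T z < t2 + 1 ∧ ¬ lo z)).card : ℝ) := by
        by_contra hc
        push Not at hc
        exact hn hc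
      set Zc := Z.filter (fun z => T z < t2 + 1 ∧ ¬ lo z) with hZc
      set Ug := U.filter (fun z => t2 < T z ∧ T z < h) with hUg
      have hsub : Zc ⊆ Zh := by
        intro z hz
        simp only [hZc, Zh, Z', mem_filter] at hz ⊢
        exact ⟨⟨hz.1, by omega⟩, hz.2.2⟩
      have b1 : (Zc.card : ℝ) * Ug.card ≤ ∑ z ∈ Zc, ((EU z).card : ℝ) := by
        have : ∀ z ∈ Zc, (Ug.card : ℝ) ≤ ((EU z).card : ℝ) := by
          intro z hz
          have hz' : T z < t2 + 1 := (mem_filter.1 hz).2.1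
          have : Ug ⊆ EU z := by
            intro x hx
            simp only [hUg, EU, mem_filter] at hx ⊢
            exact ⟨hx.1, by omega, hx.2.2⟩
          exact_mod_cast card_le_card this
        have := sum_le_sum this
        rwa [sum_const, nsmul_eq_mul] at this
      have b2 : ∑ z ∈ Zc, ((EU z).card : ℝ) ≤ ∑ z ∈ Zh, ((EU z).card : ℝ) :=
        sum_le_sum_of_subset_of_nonneg hsub (fun z _ _ => Nat.cast_nonneg _)
      have b3 : (κ * m) * (Ug.card : ℝ) ≤ (κ * m) * (κ * m) := by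
        have k1 : (κ * m) * (Ug.card : ℝ) ≤ Zc.card * Ug.card :=
          mul_le_mul_of_nonneg_right hn'.le (Nat.cast_nonneg _)
        calc (κ * m) * (Ug.card : ℝ) ≤ κ ^ 2 * m ^ 2 := by linarith
          _ = (κ * m) * (κ * m) := by ring
      have b4 : (Ug.card : ℝ) ≤ κ * m := le_of_mul_le_mul_left b3 hκm0
      have hsub2 : U.filter (fun z => t2 ≤ T z ∧ T z < t1) ⊆ Ug ∪
          (univ : Finset V).filter (fun z => t2 ≤ T z ∧ T z < t2 + 1) := by
        intro z hz
        simp only [hUg, mem_filter, mem_union, mem_univ, true_and] at hz ⊢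
        rcases lt_or_ge t2 (T z) with k | k
        · exact Or.inl ⟨hz.1, k, by omega⟩
        · exact Or.inr ⟨hz.2.1, by omega⟩
      have c1 := (card_le_card hsub2).trans (card_union_le _ _)
      have c2 := hG.card_Ico_le t2 (t2 + 1)
      have c3 : (U.filter (fun z => t2 ≤ T z ∧ T z < t1)).card ≤ Ug.card + 1 := by
        omega
      have c4 : ((U.filter (fun z => t2 ≤ T z ∧ T z < t1)).card : ℝ) ≤ Ug.card + 1 := by
        exact_mod_cast c3
      linarith
  refine ⟨t2, by omega, ?_, ?_⟩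
  · -- final count
    have f1 : ((univ : Finset V).filter (fun z => T z < t2)).card = t2 := hG.card_lt (by omega)
    have f2 : (t2 : ℝ) ≤ (Z.filter (fun z => T z < t1 ∧ lo z)).card +
        (Z.filter (fun z => T z < t2 ∧ ¬ lo z)).card + (U.filter (fun z => T z < t2)).card := by
      have e : (univ : Finset V).filter (fun z => T z < t2) ⊆
          (Z.filter (fun z => T z < t1 ∧ lo z) ∪ Z.filter (fun z => T z < t2 ∧ ¬ lo z)) ∪
          U.filter (fun z => T z < t2) := by
        intro z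
        simp only [mem_filter, mem_union, mem_univ, true_and, hZm', hUm]
        intro k
        rcases lt_or_ge (∑ x ∈ X, ar D x z) (r * m) with k2 | k2
        · left
          by_cases k3 : lo z
          · exact Or.inl ⟨⟨by omega, k2⟩, by omega, k3⟩
          · exact Or.inr ⟨⟨by omega, k2⟩, k, k3⟩
        · exact Or.inr ⟨⟨by omega, k2⟩, k⟩
      have := (card_le_card e).trans ((card_union_le _ _).trans
        (Nat.add_le_add_right (card_union_le _ _) _))
      rw [f1] at this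
      exact_mod_cast this
    have f3 : (U.card : ℝ) = (U.filter (fun z => T z < t2)).card +
        ((X'.filter (fun z => t2 ≤ T z)).card + (G.filter (fun z => t2 ≤ T z)).card) := by
      have e : U.filter (fun z => ¬ T z < t2) =
          X'.filter (fun z => t2 ≤ T z) ∪ G.filter (fun z => t2 ≤ T z) := by
        rw [← filter_union, ← hUX'G]
        apply filter_congr
        intro z _
        exact not_lt
      have e2 := card_filter_add_card_filter_not (s := U) (fun z => T z < t2)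
      rw [e, card_union_of_disjoint (disjoint_filter_filter hX'Gd)] at e2
      exact_mod_cast e2.symm
    have f4 : ((X.filter (fun x => t2 ≤ T x)).card : ℝ) ≤
        (X'.filter (fun z => t2 ≤ T z)).card + (X.filter (fun x => x ∈ Z)).card := by
      have : X.filter (fun x => t2 ≤ T x) ⊆
          X'.filter (fun z => t2 ≤ T z) ∪ X.filter (fun x => x ∈ Z) := by
        intro x hx
        simp only [mem_filter, mem_union, X'] at hx ⊢
        by_cases k : x ∈ Z
        · exact Or.inr ⟨hx.1, k⟩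
        · exact Or.inl ⟨⟨hx.1, k⟩, hx.2⟩
      exact_mod_cast (card_le_card this).trans (card_union_le _ _)
    have f5 : ((X'.filter (fun z => t1 ≤ T z)).card : ℝ) - (G.filter (fun z => t1 ≤ T z)).card ≤
        κ * m := by
      have : Δ t1 ≤ κ * m := by linarith
      exact this
    have f6 : ((X'.filter (fun z => t2 ≤ T z)).card : ℝ) ≤ (X'.filter (fun z => t1 ≤ T z)).card +
        (U.filter (fun z => t2 ≤ T z ∧ T z < t1)).card := by
      have : X'.filter (fun z => t2 ≤ T z) ⊆ X'.filter (fun z => t1 ≤ T z) ∪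
          U.filter (fun z => t2 ≤ T z ∧ T z < t1) := by
        intro x hx
        simp only [mem_filter, mem_union] at hx ⊢
        rcases lt_or_ge (T x) t1 with k | k
        · exact Or.inr ⟨hX'U hx.1, hx.2, k⟩
        · exact Or.inl ⟨hx.1, k⟩
      exact_mod_cast (card_le_card this).trans (card_union_le _ _)
    have f7 : ((G.filter (fun z => t1 ≤ T z)).card : ℝ) ≤ (G.filter (fun z => t2 ≤ T z)).card := by
      have : G.filter (fun z => t1 ≤ T z) ⊆ G.filter (fun z => t2 ≤ T z) := by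
        intro x hx
        simp only [mem_filter] at hx ⊢
        exact ⟨hx.1, by omega⟩
      exact_mod_cast card_le_card this
    have f8 : ((Z.filter (fun z => T z < t2 ∧ ¬ lo z)).card : ℝ) ≤ κ * m := ht2
    rw [f3]
    linarith
  · have e : (univ : Finset V).filter (fun z => T z < t2 ∧ ¬ lo z) ⊆
        Z.filter (fun z => T z < t2 ∧ ¬ lo z) := by
      intro z hz
      simp only [mem_filter, mem_univ, true_and] at hz
      rw [mem_filter]
      refine ⟨?_, hz⟩
      rw [hZm']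
      refine ⟨by omega, ?_⟩
      by_contra hc
      push Not at hc
      exact hz.2 (hUlo z ((hUm z).2 ⟨by omega, hc⟩))
    have f1 : (((univ : Finset V).filter (fun z => T z < t2 ∧ ¬ lo z)).card : ℝ) ≤
        (Z.filter (fun z => T z < t2 ∧ ¬ lo z)).card := by exact_mod_cast card_le_card e
    have f2 : ((Z.filter (fun z => T z < t2 ∧ ¬ lo z)).card : ℝ) ≤ κ * m := ht2
    linarith

end Pool.Agent.Helper76.SNW
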