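import Pool.Agent.Helper76.SNW.Weights
import Pool.Agent.Helper43.SNHom
import Pool.Agent.Helper76.SNW.StepE

/-!
# The averaging argument with weights and the deterministic theorem
-/

namespace Pool.Agent.Helper76.SNW

open Finset Pool.Agent.Helper76.SNC

set_option linter.unusedSectionVars false

variable {V : Type*} [Fintype V] [DecidableEq V]

/-- Reachable sets are large on average. -/
theorem sum_Rs_gew {D : V → V → Prop} {w : V → V → ℝ} {T : V → ℕ} (hG : GoodW D w T)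
    (m : ℕ) (r ξ : ℝ) (hξ : 0 ≤ ξ) (F X : Finset V)
    (hF : ∀ z, r * m ≤ ∑ x ∈ X, ar D x z →
      ∀ A ⊆ F, (∀ v ∈ A, ¬ ∃ x, D v x ∧ D x z) → (A.card : ℝ) ≤ ξ * F.card) :
    (F.card : ℝ) * (Us D T m r X).card - ξ * F.card * m ≤ ∑ v ∈ F, ((Rs D v).card : ℝ) := by
  classical
  set U := Us D T m r X with hUdef
  have hUm : ∀ z, z ∈ U ↔ (T z < m ∧ r * m ≤ ∑ x ∈ X, ar D x z) := by
    intro z
    simp [hUdef, Us]
  have hUc : (U.card : ℝ) ≤ m := by
    have h1 : U ⊆ (univ : Finset V).filter (fun x => T x < m) := by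
      intro x hx
      simp only [mem_filter, mem_univ, true_and]
      exact ((hUm x).1 hx).1
    exact_mod_cast (card_le_card h1).trans (hG.card_lt_le m)
  have h1 : ∀ v ∈ F, (U.card : ℝ) - ((U.filter (fun z => z ∉ Rs D v)).card : ℝ) ≤
      ((Rs D v).card : ℝ) := by
    intro v _
    have e : U ⊆ U.filter (fun z => z ∉ Rs D v) ∪ Rs D v := by
      intro z hz
      simp only [mem_union, mem_filter]
      by_cases k : z ∈ Rs D v
      · exact Or.inr k
      · exact Or.inl ⟨hz, k⟩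
    have := (card_le_card e).trans (card_union_le _ _)
    have h2 : (U.card : ℝ) ≤ (U.filter (fun z => z ∉ Rs D v)).card + (Rs D v).card := by
      exact_mod_cast this
    linarith
  have h2 := sum_le_sum h1
  rw [sum_sub_distrib, sum_const, nsmul_eq_mul] at h2
  have h3 : ∑ v ∈ F, ((U.filter (fun z => z ∉ Rs D v)).card : ℝ) =
      ∑ z ∈ U, ((F.filter (fun v => z ∉ Rs D v)).card : ℝ) := by
    simp only [card_filter]
    push_cast
    rw [sum_comm]
  have h4 : ∀ z ∈ U, ((F.filter (fun v => z ∉ Rs D v)).card : ℝ) ≤ ξ * F.card := by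
    intro z hz
    apply hF z ((hUm z).1 hz).2 _ (filter_subset _ _)
    intro v hv hc
    exact (mem_filter.1 hv).2 (mem_Rs.2 (Or.inr hc))
  have h5 := sum_le_sum h4
  rw [sum_const, nsmul_eq_mul] at h5
  have h6 : (U.card : ℝ) * (ξ * F.card) ≤ m * (ξ * F.card) :=
    mul_le_mul_of_nonneg_right hUc (by positivity)
  rw [h3] at h2
  linarith

open Classical in
/-- Out-degrees are small on average. -/
theorem sum_No_lew {D : V → V → Prop} {w : V → V → ℝ} {T : V → ℕ} (hG : GoodW D w T)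
    (has : ∀ u v, D u v → ¬ D v u) {p P Q ε ε₃ m0 ρ σ κ' : ℝ} (hw : Wts w p Q) (hp : 0 < p)
    (hQ0 : 0 < Q) (hJ : JU D P ε m0) (hε : 0 ≤ ε) (m τ t : ℕ)
    (hm0 : m0 ≤ m) (hτ : τ ≤ m) (ht : t ≤ m) (lo : V → Prop)
    (F X : Finset V) (hFτ : ∀ v ∈ F, T v < τ) (hFlo : ∀ v ∈ F, lo v)
    (hFN : ∀ v ∈ F, ∀ x, D v x → lo x) (hX : ∀ x ∈ X, T x < m)
    (hN : ∀ A B : Finset V, (∀ a ∈ A, T a < m ∧ lo a) → (∀ b ∈ B, T b < m ∧ lo b) →
      |∑ a ∈ A, ∑ b ∈ B, (w a b * dg D a b - 1)| ≤ ε₃ * m ^ 2)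
    (hout : ∀ v ∈ F, (((No D v).filter (fun y => m ≤ T y)).card : ℝ) ≤ σ)
    (hXF : ∀ x, T x < m → lo x → x ∉ X → ∑ v ∈ F, ar D v x ≤ ρ * F.card) (hρ : 0 ≤ ρ)
    (hhi : (((univ : Finset V).filter (fun z => T z < t ∧ ¬ lo z)).card : ℝ) ≤ κ') :
    ∑ v ∈ F, ((No D v).card : ℝ) ≤
      F.card * (P * (X.filter (fun x => t ≤ T x)).card + Q / 2 * t) +
      F.card * (σ + ρ * m + τ + Q / p * κ') + ε * m ^ 2 + Q / 2 * (ε₃ * m ^ 2) := by
  set Xp := X.filter (fun x => t ≤ T x) with hXp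
  let L : Finset V := univ.filter (fun x => T x < m)
  let Pl : Finset V := univ.filter (fun x => T x < t ∧ lo x)
  let Ph : Finset V := univ.filter (fun x => T x < t ∧ ¬ lo x)
  let O : Finset V := univ.filter (fun x => m ≤ T x)
  let Lx : Finset V := L.filter (fun x => lo x ∧ x ∉ X)
  have hw0 : ∀ u v, 0 ≤ w u v := fun u v => le_trans (by positivity) (hw.lo u v)
  have hcardm : ∀ A : Finset V, (∀ x ∈ A, T x < m) → (A.card : ℝ) ≤ m := by
    intro A hA
    have h1 : A ⊆ (univ : Finset V).filter (fun x => T x < m) := by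
      intro x hx
      simp only [mem_filter, mem_univ, true_and]
      exact hA x hx
    exact_mod_cast (card_le_card h1).trans (hG.card_lt_le m)
  have hFm : (F.card : ℝ) ≤ m := hcardm F (fun v hv => lt_of_lt_of_le (hFτ v hv) hτ)
  have hXpm : (Xp.card : ℝ) ≤ m := hcardm Xp (fun v hv => hX v (mem_of_mem_filter v hv))
  have hPt : (Pl.card : ℝ) ≤ t := by
    have h1 : Pl ⊆ (univ : Finset V).filter (fun x => T x < t) := by
      intro x hx
      simp only [mem_filter, mem_univ, true_and, Pl] at hx ⊢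
      exact hx.1
    exact_mod_cast (card_le_card h1).trans (hG.card_lt_le t)
  have hF0 : (0 : ℝ) ≤ F.card := Nat.cast_nonneg _
  -- pointwise
  have h1 : ∀ v ∈ F, ((No D v).card : ℝ) ≤ σ + ∑ x ∈ Lx, ar D v x + ∑ x ∈ Xp, dg D v x +
      (τ + Q / 2 * (∑ x ∈ Pl, w v x * dg D v x + 2 / p * κ')) := by
    intro v hv
    have e1 : ((No D v).card : ℝ) ≤ ∑ x ∈ O, ar D v x + ∑ x ∈ Lx, ar D v x +
        ∑ x ∈ Xp, ar D v x + ∑ x ∈ Pl, ar D v x := by
      have e0 : ((No D v).card : ℝ) = ∑ x ∈ No D v, ar D v x := by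
        have : ∀ x ∈ No D v, ar D v x = 1 := by
          intro x hx
          rw [mem_No] at hx
          simp [ar, hx]
        rw [sum_congr rfl this]
        simp
      rw [e0]
      have c : No D v ⊆ ((O ∪ Lx) ∪ Xp) ∪ Pl := by
        intro x hx
        rw [mem_No] at hx
        have hlo := hFN v hv x hx
        simp only [mem_union, mem_filter, mem_univ, true_and, O, Lx, L, Pl, hXp]
        by_cases k1 : m ≤ T x
        · exact Or.inl (Or.inl (Or.inl k1))
        · by_cases k2 : T x < t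
          · exact Or.inr ⟨k2, hlo⟩
          · by_cases k3 : x ∈ X
            · exact Or.inl (Or.inr ⟨k3, by omega⟩)
            · exact Or.inl (Or.inl (Or.inr ⟨by omega, hlo, k3⟩))
      have mono : ∀ A B : Finset V, ∑ x ∈ A ∪ B, ar D v x ≤ ∑ x ∈ A, ar D v x + ∑ x ∈ B, ar D v x := by
        intro A B
        rw [← sum_union_inter]
        have : 0 ≤ ∑ x ∈ A ∩ B, ar D v x := sum_nonneg (fun x _ => ar_nonneg D v x)
        linarith
      have c1 : ∑ x ∈ No D v, ar D v x ≤ ∑ x ∈ ((O ∪ Lx) ∪ Xp) ∪ Pl, ar D v x :=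
        sum_le_sum_of_subset_of_nonneg c (fun x _ _ => ar_nonneg D v x)
      have c2 := mono ((O ∪ Lx) ∪ Xp) Pl
      have c3 := mono (O ∪ Lx) Xp
      have c4 := mono O Lx
      linarith
    have e2 : ∑ x ∈ O, ar D v x ≤ σ := by
      have := hout v hv
      rw [sum_ar_out]
      have e : O.filter (fun x => D v x) = (No D v).filter (fun y => m ≤ T y) := by
        ext x
        simp only [mem_filter, mem_univ, true_and, O, mem_No]
        tauto
      rw [e]
      exact this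
    have e3 : ∑ x ∈ Xp, ar D v x ≤ ∑ x ∈ Xp, dg D v x := by
      apply sum_le_sum
      intro x _
      unfold dg
      linarith [ar_nonneg D x v]
    have e4 : ∑ x ∈ Pl, ar D v x ≤ τ + Q / 2 * (∑ x ∈ Pl, w v x * dg D v x + 2 / p * κ') := by
      have f1 := hG.F1 v t
      let Q' : Finset V := univ.filter (fun x => T v < T x ∧ T x < t)
      let R : Finset V := univ.filter (fun x => T x < T v)
      have g1 : ∑ x ∈ Pl, ar D v x ≤ ∑ x ∈ Q', ar D v x + ∑ x ∈ R, ar D v x := by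
        have c : Pl ⊆ insert v (Q' ∪ R) := by
          intro x hx
          simp only [mem_filter, mem_univ, true_and, Pl, Q', R, mem_insert, mem_union] at hx ⊢
          rcases lt_trichotomy (T x) (T v) with k | k | k
          · exact Or.inr (Or.inr k)
          · exact Or.inl (hG.inj k)
          · exact Or.inr (Or.inl ⟨k, hx.1⟩)
        have c1 : ∑ x ∈ Pl, ar D v x ≤ ∑ x ∈ insert v (Q' ∪ R), ar D v x :=
          sum_le_sum_of_subset_of_nonneg c (fun x _ _ => ar_nonneg D v x)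
        have hvv : ar D v v = 0 := by
          unfold ar
          rw [if_neg]
          intro hc
          exact has v v hc hc
        have hvn : v ∉ Q' ∪ R := by
          simp [Q', R]
        have hd : Disjoint Q' R := by
          rw [Finset.disjoint_left]
          intro x k1 k2
          simp only [mem_filter, mem_univ, true_and, Q', R] at k1 k2
          omega
        rw [sum_insert hvn, hvv, sum_union hd] at c1
        linarith
      have g2 : ∑ x ∈ R, ar D v x ≤ τ := by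
        have c1 := sum_le_sum (fun x (_ : x ∈ R) => ar_le_one D v x)
        have c2 := hG.card_lt_le (T v)
        have c3 : (R.card : ℝ) ≤ τ := by
          have := hFτ v hv
          have : R.card ≤ τ := c2.trans (by omega)
          exact_mod_cast this
        simp only [sum_const, nsmul_eq_mul, mul_one] at c1
        linarith
      have g3 : ∑ x ∈ Q', ar D v x ≤ Q * ∑ x ∈ Q', wr D w v x := by
        rw [mul_sum]
        apply sum_le_sum
        intro x _
        unfold wr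
        have k1 : 1 ≤ Q * w v x := by
          have := mul_le_mul_of_nonneg_left (hw.lo v x) hQ0.le
          have e : Q * (1 / Q) = 1 := by field_simp
          linarith
        have k2 := mul_le_mul_of_nonneg_right k1 (ar_nonneg D v x)
        linarith
      have g4 : 2 * ∑ x ∈ Q', wr D w v x ≤ ∑ x ∈ Q', w v x * dg D v x := by
        have e : ∑ x ∈ Q', w v x * dg D v x = ∑ x ∈ Q', wr D w v x + ∑ x ∈ Q', wr D w x v := by
          rw [← sum_add_distrib]
          apply sum_congr rfl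
          intro x _
          unfold wr dg
          rw [hw.symm x v]
          ring
        rw [e]
        have : ∑ x ∈ Q', wr D w v x ≤ ∑ x ∈ Q', wr D w x v := f1
        linarith
      have g5 : ∑ x ∈ Q', w v x * dg D v x ≤ ∑ x ∈ Pl, w v x * dg D v x +
          ∑ x ∈ Ph, w v x * dg D v x := by
        have hd : Disjoint Pl Ph := by
          rw [Finset.disjoint_left]
          intro x k1 k2
          simp only [mem_filter, mem_univ, true_and, Pl, Ph] at k1 k2
          exact k2.2 k1.2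
        rw [← sum_union hd]
        apply sum_le_sum_of_subset_of_nonneg
        · intro x hx
          simp only [mem_filter, mem_univ, true_and, Pl, Ph, Q', mem_union] at hx ⊢
          by_cases k : lo x
          · exact Or.inl ⟨hx.2, k⟩
          · exact Or.inr ⟨hx.2, k⟩
        · intro x _ _
          exact mul_nonneg (hw0 v x) (dg_nonneg D v x)
      have g6 : ∑ x ∈ Ph, w v x * dg D v x ≤ 2 / p * κ' := by
        have k1 : ∀ x ∈ Ph, w v x * dg D v x ≤ 2 / p := by
          intro x _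
          have := mul_le_mul (hw.hi v x) (dg_le_one has v x) (dg_nonneg D v x) (by positivity)
          linarith
        have k2 := sum_le_sum k1
        rw [sum_const, nsmul_eq_mul] at k2
        have k3 : (Ph.card : ℝ) * (2 / p) ≤ κ' * (2 / p) :=
          mul_le_mul_of_nonneg_right hhi (by positivity)
        linarith
      have g7 : Q / 2 * ∑ x ∈ Q', w v x * dg D v x ≤
          Q / 2 * (∑ x ∈ Pl, w v x * dg D v x + 2 / p * κ') :=
        mul_le_mul_of_nonneg_left (by linarith) (by positivity)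
      have g8 : Q / 2 * (2 * ∑ x ∈ Q', wr D w v x) ≤ Q / 2 * ∑ x ∈ Q', w v x * dg D v x :=
        mul_le_mul_of_nonneg_left g4 (by positivity)
      linarith
    linarith
  have h2 := sum_le_sum h1
  simp only [sum_add_distrib, sum_const, nsmul_eq_mul, ← mul_sum] at h2
  have h3 : ∑ v ∈ F, ∑ x ∈ Lx, ar D v x ≤ F.card * (ρ * m) := by
    rw [sum_comm]
    have c1 : ∀ x ∈ Lx, ∑ v ∈ F, ar D v x ≤ ρ * F.card := by
      intro x hx
      simp only [mem_filter, mem_univ, true_and, L, Lx] at hx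
      exact hXF x hx.1 hx.2.1 hx.2.2
    have c2 := sum_le_sum c1
    rw [sum_const, nsmul_eq_mul] at c2
    have c3 : (Lx.card : ℝ) ≤ m := hcardm Lx (fun x hx => by
      simp only [mem_filter, mem_univ, true_and, L, Lx] at hx
      exact hx.1)
    have c4 : (Lx.card : ℝ) * (ρ * F.card) ≤ m * (ρ * F.card) :=
      mul_le_mul_of_nonneg_right c3 (by positivity)
    linarith
  have h4 := hJ.le hε hm0 F Xp hFm hXpm
  have h5 := (abs_le.1 (hN F Pl (fun a ha => ⟨lt_of_lt_of_le (hFτ a ha) hτ, hFlo a ha⟩)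
    (fun b hb => by
      simp only [mem_filter, mem_univ, true_and, Pl] at hb
      exact ⟨by omega, hb.2⟩))).2
  have h6 : ∑ a ∈ F, ∑ b ∈ Pl, (w a b * dg D a b - 1) =
      ∑ a ∈ F, ∑ b ∈ Pl, w a b * dg D a b - F.card * Pl.card := by
    simp only [sum_sub_distrib, sum_const, nsmul_eq_mul, mul_one]
  rw [h6] at h5
  have h7 : (F.card : ℝ) * Pl.card ≤ F.card * t := mul_le_mul_of_nonneg_left hPt hF0
  have h8 : Q / 2 * ∑ a ∈ F, ∑ b ∈ Pl, w a b * dg D a b ≤ Q / 2 * (F.card * t + ε₃ * m ^ 2) :=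
    mul_le_mul_of_nonneg_left (by linarith) (by positivity)
  have h9 : (F.card : ℝ) * (Q / p * κ') = Q / 2 * (F.card * (2 / p * κ')) := by
    field_simp
  linarith

open Classical in
set_option maxHeartbeats 4000000 in
/-- **Deterministic theorem for bidense hosts.** -/
theorem deterministicB {p P θ : ℝ} (hp : 0 < p) (hpP : p ≤ P) (hP1 : P ≤ 1) (hθ : 0 < θ) :
    ∃ ε C : ℝ, 0 < ε ∧ 0 < C ∧ ∀ (V : Type) [Fintype V] [DecidableEq V] [Nonempty V]
      (D : V → V → Prop) (_ : ∀ u v, D u v → ¬ D v u) (m0 : ℝ) (_ : 1 ≤ m0) (_ : JL D p ε m0)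
      (_ : JU D P ε m0) (_ : ∀ v, C * m0 ≤ (No D v).card),
      ∃ v, (2 / P - θ) * (No D v).card ≤ ((Rs D v).card : ℝ) := by
  -- reduce to θ ≤ 1
  wlog hθ1 : θ ≤ 1 generalizing θ with H
  · obtain ⟨ε, C, hε, hC, h⟩ := H (θ := 1) one_pos le_rfl
    refine ⟨ε, C, hε, hC, ?_⟩
    intro V _ _ _ D has m0 hm0 hJ hJU hd
    obtain ⟨v, hv⟩ := h V D has m0 hm0 hJ hJU hd
    refine ⟨v, le_trans ?_ hv⟩
    apply mul_le_mul_of_nonneg_right _ (Nat.cast_nonneg _)
    push Not at hθ1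
    linarith
  have hP0 : 0 < P := lt_of_lt_of_le hp hpP
  have hp1 : p ≤ 1 := hpP.trans hP1
  have hp2 : p ^ 2 ≤ 1 := pow_le_one₀ hp.le hp1
  have hpp : p ^ 2 ≤ p := by
    rw [pow_two]
    exact mul_le_of_le_one_right hp.le hp1
  have hp3 : p ^ 3 ≤ 1 := pow_le_one₀ hp.le hp1
  have hp4 : p ^ 4 ≤ 1 := pow_le_one₀ hp.le hp1
  -- parameters
  set K : ℝ := 40 / p ^ 4 + 1 with hK
  have hK40 : 1 ≤ 40 / p ^ 4 := by
    rw [le_div_iff₀ (by positivity)]
    linarith
  have hK1 : 1 ≤ K := by linarith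
  set η : ℝ := θ * p ^ 3 / 400 with hη
  have hη0 : 0 < η := by positivity
  have hη1 : η ≤ 1 / 2 := by
    have : θ * p ^ 3 ≤ 1 * 1 := mul_le_mul hθ1 hp3 (by positivity) (by norm_num)
    rw [hη]
    linarith
  set κ : ℝ := θ * p ^ 4 / (2000 * K) with hκ
  have hκ0 : 0 < κ := by positivity
  have hκ1 : κ ≤ 1 / 2000 := by
    rw [hκ, div_le_div_iff₀ (by positivity) (by norm_num)]
    have : θ * p ^ 4 ≤ 1 * 1 := mul_le_mul hθ1 hp4 (by positivity) (by norm_num)
    nlinarith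
  set δ : ℝ := p * κ with hδ
  have hδ0 : 0 < δ := by positivity
  have hδ1 : δ ≤ 1 := by
    rw [hδ]
    have : p * κ ≤ 1 * 1 := mul_le_mul hp1 (by linarith) hκ0.le (by norm_num)
    linarith
  set Q : ℝ := P + δ with hQ
  have hQ0 : 0 < Q := by positivity
  have hQ2 : Q ≤ 2 := by linarith
  set r : ℝ := p ^ 2 * κ ^ 2 / 40 with hr
  have hr0 : 0 < r := by positivity
  set ρs : ℝ := p * κ / 2 with hρs
  have hρs0 : 0 < ρs := by positivity
  obtain ⟨N, hN⟩ : ∃ N : ℕ, 1 < N * r := by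
    obtain ⟨N, hN⟩ := exists_nat_gt (1 / r)
    refine ⟨N, ?_⟩
    rwa [div_lt_iff₀ hr0] at hN
  obtain ⟨q, hq⟩ : ∃ q : ℕ, 80 / (p ^ 2 * κ ^ 2) < q := exists_nat_gt _
  have hq0 : (0 : ℝ) < q := lt_trans (by positivity) hq
  have hqpos : 0 < q := by exact_mod_cast hq0
  have hq' : 80 < q * (p ^ 2 * κ ^ 2) := by
    rwa [div_lt_iff₀ (by positivity)] at hq
  set γ : ℝ := κ ^ N * (p ^ 2 / 20 * η / K) with hγ
  have hγ0 : 0 < γ := by positivity
  -- the error of the weights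
  set ε₃ : ℝ := min (p * κ ^ 2 / (20 * q)) (p * γ * κ / 4) with hε3
  have hε30 : 0 < ε₃ := lt_min (by positivity) (by positivity)
  have hε3a : ε₃ ≤ p * κ ^ 2 / (20 * q) := min_le_left _ _
  have hε3b : ε₃ ≤ p * γ * κ / 4 := min_le_right _ _
  set c : ℝ := ε₃ * p ^ 12 / 1920000 with hc
  have hc0 : 0 < c := by positivity
  obtain ⟨ε1, C1, hε10, hC11, hwts⟩ := exists_weights hp hpP hP1 hδ0 hc0
  set ε : ℝ := min ε1 (min (p ^ 3 / 20000) (min (p ^ 2 * κ ^ 2 / (10 * q))
    (min (p ^ 2 * κ / 4) (p * γ * κ / 4)))) with hεdef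
  have hε0 : 0 < ε := by
    rw [hεdef]
    refine lt_min hε10 (lt_min (by positivity) (lt_min (by positivity)
      (lt_min (by positivity) (by positivity))))
  have hεa : ε ≤ ε1 := min_le_left _ _
  have hεb : ε ≤ p ^ 3 / 20000 := (min_le_right _ _).trans (min_le_left _ _)
  have hεc : ε ≤ p ^ 2 * κ ^ 2 / (10 * q) :=
    (min_le_right _ _).trans ((min_le_right _ _).trans (min_le_left _ _))
  have hεd : ε ≤ p ^ 2 * κ / 4 :=
    (min_le_right _ _).trans ((min_le_right _ _).trans ((min_le_right _ _).trans (min_le_left _ _)))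
  have hεe : ε ≤ p * γ * κ / 4 :=
    (min_le_right _ _).trans ((min_le_right _ _).trans ((min_le_right _ _).trans (min_le_right _ _)))
  set C : ℝ := C1 + 200 / (p ^ 2 * η) + 50 / p ^ 2 * (q + 1 + 2 / κ) with hCdef
  have hCa : C1 ≤ C := by
    have : 0 ≤ 200 / (p ^ 2 * η) + 50 / p ^ 2 * (q + 1 + 2 / κ) := by positivity
    linarith
  have hC1 : 1 ≤ C := hC11.trans hCa
  have hCpos : 0 < C := by linarith
  have hC2 : 200 / p ^ 2 ≤ C * η := by
    have h1 : 200 / (p ^ 2 * η) ≤ C := by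
      have : 0 ≤ 50 / p ^ 2 * (q + 1 + 2 / κ) := by positivity
      linarith
    have h2 := mul_le_mul_of_nonneg_right h1 hη0.le
    have h3 : 200 / (p ^ 2 * η) * η = 200 / p ^ 2 := by
      field_simp
    linarith
  have hC3 : 50 / p ^ 2 * (q + 1 + 2 / κ) ≤ C := by
    have : 0 ≤ 200 / (p ^ 2 * η) := by positivity
    linarith
  refine ⟨ε, C, hε0, hCpos, ?_⟩
  intro V _ _ _ D has m0 hm0 hJ hJU hd
  by_contra hcon
  push Not at hcon
  have h2P : 2 / P ≤ 2 / p := div_le_div_of_nonneg_left (by norm_num) hp hpP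
  have hR : ∀ v, ((Rs D v).card : ℝ) ≤ 2 / p * (No D v).card := by
    intro v
    have h1 := hcon v
    have h2 : (2 / P - θ) * ((No D v).card : ℝ) ≤ 2 / p * (No D v).card :=
      mul_le_mul_of_nonneg_right (by linarith) (Nat.cast_nonneg _)
    linarith
  have hDM : ∀ u v, D u v → ((No D v).card : ℝ) ≤ 2 / p * (No D u).card := by
    intro u v huv
    have h1 : ((No D v).card : ℝ) ≤ (Rs D u).card := by
      exact_mod_cast card_le_card (No_subset_Rs huv)
    exact h1.trans (hR u)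
  obtain ⟨w, hw, hnorm⟩ := hwts V D has ε C m0 hε0.le hεa hCa hm0 hJ hJU hd
  obtain ⟨T, hG⟩ := exists_goodW D w
  obtain ⟨τ, F1, hτ1, hτn, hF1c, hF1⟩ := stepA hG has hw hQ0 hQ2 hp hp1 hJ hm0 hη0 hη1 hε0.le hεb
    hC2 hC1 hd hR
  set a : ℝ := τ / η with ha
  have hτpos : (0 : ℝ) < τ := lt_of_lt_of_le (by positivity) hτ1
  have ha0 : 0 < a := by positivity
  have hτa : (τ : ℝ) = η * a := by
    rw [ha]
    field_simp
  -- a ≥ C m0
  have haC : C * m0 ≤ a := by
    rw [ha, le_div_iff₀ hη0]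
    linarith
  have ha1 : 1 ≤ a := by
    have : 1 * 1 ≤ C * m0 := mul_le_mul hC1 hm0 (by norm_num) hCpos.le
    linarith
  -- the window
  set m : ℕ := min (Fintype.card V) ⌈40 / p ^ 4 * a⌉₊ with hm
  have hmn : m ≤ Fintype.card V := min_le_left _ _
  have hF1ne : F1.Nonempty := by
    rw [← card_pos]
    have : 0 < (F1.card : ℝ) := lt_of_lt_of_le (by positivity) hF1c
    exact_mod_cast this
  have hma : (m : ℝ) ≤ K * a := by
    have h1 : (m : ℝ) ≤ ⌈40 / p ^ 4 * a⌉₊ := by exact_mod_cast min_le_right _ _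
    have h2 : (⌈40 / p ^ 4 * a⌉₊ : ℝ) < 40 / p ^ 4 * a + 1 := Nat.ceil_lt_add_one (by positivity)
    rw [hK]
    linarith
  have ham : p ^ 2 / 50 * a ≤ m := by
    rw [hm]
    rcases min_choice (Fintype.card V) ⌈40 / p ^ 4 * a⌉₊ with h | h
    · rw [h]
      obtain ⟨x, hx⟩ := hF1ne
      have h1 := (hF1 x hx).2.1
      have h2 : ((No D x).card : ℝ) ≤ Fintype.card V := by exact_mod_cast card_le_univ _
      linarith
    · rw [h]
      have h1 : 40 / p ^ 4 * a ≤ ⌈40 / p ^ 4 * a⌉₊ := Nat.le_ceil _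
      have h2 : p ^ 2 / 50 ≤ 40 / p ^ 4 := by linarith
      have h3 := mul_le_mul_of_nonneg_right h2 ha0.le
      linarith
  have hmor : m = Fintype.card V ∨ 40 / p ^ 4 * a ≤ m := by
    rw [hm]
    rcases min_choice (Fintype.card V) ⌈40 / p ^ 4 * a⌉₊ with h | h
    · left; exact h
    · right
      rw [h]
      exact Nat.le_ceil _
  have hmbig : (q + 1 + 2 / κ) * m0 ≤ m := by
    have h1 : p ^ 2 / 50 * (C * m0) ≤ p ^ 2 / 50 * a := mul_le_mul_of_nonneg_left haC (by positivity)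
    have h2 : 50 / p ^ 2 * (q + 1 + 2 / κ) * m0 ≤ C * m0 :=
      mul_le_mul_of_nonneg_right hC3 (by linarith)
    have h3 : p ^ 2 / 50 * (50 / p ^ 2 * (q + 1 + 2 / κ) * m0) ≤ p ^ 2 / 50 * (C * m0) :=
      mul_le_mul_of_nonneg_left h2 (by positivity)
    have h4 : p ^ 2 / 50 * (50 / p ^ 2 * (q + 1 + 2 / κ) * m0) = (q + 1 + 2 / κ) * m0 := by
      field_simp
    linarith
  have hκinv : 0 < 2 / κ := by positivity
  have hm0m : m0 ≤ m := by
    refine le_trans ?_ hmbig
    have : 1 * m0 ≤ (q + 1 + 2 / κ) * m0 := mul_le_mul_of_nonneg_right (by linarith) (by linarith)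
    linarith
  have hmq : (q : ℝ) + 1 + 2 / κ ≤ m := by
    refine le_trans ?_ hmbig
    have : (q + 1 + 2 / κ) * 1 ≤ (q + 1 + 2 / κ) * m0 :=
      mul_le_mul_of_nonneg_left hm0 (by positivity)
    linarith
  have hκm : 2 ≤ κ * m := by
    have h1 : 2 / κ ≤ m := by linarith
    rw [div_le_iff₀ hκ0] at h1
    linarith
  have hmpos : (0 : ℝ) < m := by linarith
  have hτm : τ ≤ m := by
    rw [hm]
    apply le_min hτn
    have h1 : (τ : ℝ) ≤ 40 / p ^ 4 * a := by
      rw [hτa]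
      apply mul_le_mul_of_nonneg_right _ ha0.le
      linarith
    have h2 : (τ : ℝ) ≤ ⌈40 / p ^ 4 * a⌉₊ := h1.trans (Nat.le_ceil _)
    exact_mod_cast h2
  -- levels
  have h16 : 1 ≤ 16 / p ^ 4 * a := by
    have h1 : 1 ≤ 16 / p ^ 4 := by
      rw [le_div_iff₀ (by positivity)]
      linarith
    calc (1 : ℝ) = 1 * 1 := by ring
      _ ≤ 16 / p ^ 4 * a := mul_le_mul h1 ha1 (by norm_num) (by linarith)
  set N1 : ℕ := ⌊16 / p ^ 4 * a⌋₊ with hN1
  have hN1pos : N1 ≠ 0 := by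
    have : 0 < N1 := Nat.floor_pos.2 h16
    omega
  set L : ℕ := Nat.log 2 N1 with hL
  have h2L : (2 : ℝ) ^ L ≤ 16 / p ^ 4 * a := by
    have h1 : 2 ^ L ≤ N1 := Nat.pow_log_le_self 2 hN1pos
    have h2 : ((2 ^ L : ℕ) : ℝ) ≤ N1 := by exact_mod_cast h1
    have h3 : (N1 : ℝ) ≤ 16 / p ^ 4 * a := Nat.floor_le (by linarith)
    push_cast at h2
    linarith
  set lo : V → Prop := fun v => lev D v ≤ L with hlo
  have hlod : ∀ u, ((No D u).card : ℝ) ≤ 16 / p ^ 4 * a → lo u := by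
    intro u hu
    show lev D u ≤ L
    unfold lev
    exact Nat.log_mono_right (Nat.le_floor hu)
  have hc2 : 0 < 2 / p := by positivity
  have h2p1 : 1 ≤ 2 / p := by
    rw [le_div_iff₀ hp]
    linarith
  have hd1 : ∀ x ∈ F1, ((No D x).card : ℝ) ≤ 2 / p * a := fun x hx => (hF1 x hx).2.2
  have hch1 : 2 / p * a ≤ 16 / p ^ 4 * a := by
    apply mul_le_mul_of_nonneg_right _ ha0.le
    rw [div_le_div_iff₀ hp (by positivity)]
    have : p ^ 4 ≤ p := by
      calc p ^ 4 = p * p ^ 3 := by ring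
        _ ≤ p * 1 := mul_le_mul_of_nonneg_left hp3 hp.le
        _ = p := by ring
    linarith
  have hch4 : 2 / p * (2 / p * (2 / p * (2 / p * a))) = 16 / p ^ 4 * a := by
    field_simp
    norm_num
  have hch3 : 2 / p * (2 / p * (2 / p * a)) ≤ 16 / p ^ 4 * a := by
    rw [← hch4]
    have : 0 ≤ 2 / p * (2 / p * (2 / p * a)) := by positivity
    have := mul_le_mul_of_nonneg_right h2p1 this
    linarith
  have hch2 : 2 / p * (2 / p * a) ≤ 16 / p ^ 4 * a := by
    refine le_trans ?_ hch3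
    have : 0 ≤ 2 / p * (2 / p * a) := by positivity
    have := mul_le_mul_of_nonneg_right h2p1 this
    linarith
  have hF1lo : ∀ x ∈ F1, lo x := fun x hx => hlod x ((hd1 x hx).trans hch1)
  have hd2 : ∀ x ∈ F1, ∀ y, D x y → ((No D y).card : ℝ) ≤ 2 / p * (2 / p * a) := by
    intro x hx y hxy
    exact (hDM x y hxy).trans (mul_le_mul_of_nonneg_left (hd1 x hx) hc2.le)
  have hF1N : ∀ x ∈ F1, ∀ y, D x y → lo y := fun x hx y hxy => hlod y ((hd2 x hx y hxy).trans hch2)
  -- normalisation in the window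
  have hNorm : ∀ A B : Finset V, (∀ x ∈ A, T x < m ∧ lo x) → (∀ x ∈ B, T x < m ∧ lo x) →
      |∑ x ∈ A, ∑ y ∈ B, (w x y * dg D x y - 1)| ≤ ε₃ * m ^ 2 := by
    intro A B hA hB
    refine (hnorm L A B (fun x hx => (hA x hx).2) (fun x hx => (hB x hx).2)).trans ?_
    have h1 : (4 : ℝ) ^ L = (2 ^ L) ^ 2 := by
      rw [← pow_mul, mul_comm, pow_mul]
      norm_num
    have h2 : ((2 : ℝ) ^ L) ^ 2 ≤ (16 / p ^ 4 * a) ^ 2 :=
      pow_le_pow_left₀ (by positivity) h2L 2
    have h3 : a ≤ 50 / p ^ 2 * m := by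
      have := mul_le_mul_of_nonneg_left ham (show (0 : ℝ) ≤ 50 / p ^ 2 by positivity)
      have e : 50 / p ^ 2 * (p ^ 2 / 50 * a) = a := by
        field_simp
      linarith
    have h4 : (16 / p ^ 4 * a) ^ 2 ≤ (16 / p ^ 4 * (50 / p ^ 2 * m)) ^ 2 :=
      pow_le_pow_left₀ (by positivity) (mul_le_mul_of_nonneg_left h3 (by positivity)) 2
    have h5 : 3 * c * (16 / p ^ 4 * (50 / p ^ 2 * (m : ℝ))) ^ 2 = ε₃ * m ^ 2 := by
      rw [hc]
      field_simp
      ring
    rw [h1]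
    calc 3 * c * ((2 : ℝ) ^ L) ^ 2 ≤ 3 * c * (16 / p ^ 4 * (50 / p ^ 2 * (m : ℝ))) ^ 2 :=
          mul_le_mul_of_nonneg_left (h2.trans h4) (by positivity)
      _ = ε₃ * m ^ 2 := h5
  -- homogenise
  let Lw : Finset V := univ.filter (fun x => T x < m ∧ lo x)
  have hLc : (Lw.card : ℝ) ≤ m := by
    have h1 : Lw ⊆ (univ : Finset V).filter (fun x => T x < m) := by
      intro x hx
      simp only [mem_filter, mem_univ, true_and, Lw] at hx ⊢
      exact hx.1
    exact_mod_cast (card_le_card h1).trans (hG.card_lt_le m)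
  obtain ⟨F, hFF1, hFne, hFc, X, hXL, hXF, hzF⟩ := Pool.Agent.Helper43.SNHom.homogenise D Lw F1
    hF1ne m hmpos hLc ρs κ r hρs0 hκ0 (by linarith) hr0 N hN
  have hX : ∀ x ∈ X, T x < m ∧ lo x := by
    intro x hx
    have := hXL hx
    simpa [Lw] using this
  set f : ℝ := (F.card : ℝ) with hf
  have hfpos : 0 < f := by
    rw [hf]
    exact_mod_cast hFne.card_pos
  -- vertices reached
  have hU : ∀ u, T u < m → r * m ≤ ∑ x ∈ X, ar D x u → lo u ∧ ∀ z, D u z → lo z := by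
    intro u _ hu
    have h1 := hzF u hu
    have h2 : ∃ v ∈ F, ∃ x, D v x ∧ D x u := by
      by_contra hc
      push Not at hc
      have h3 : F.filter (fun v => ¬ ∃ x, D v x ∧ D x u) = F := by
        apply filter_true_of_mem
        intro v hv
        rintro ⟨x, hx1, hx2⟩
        exact hc v hv x hx1 hx2
      rw [h3] at h1
      have : κ * f ≤ 1 / 2000 * f := mul_le_mul_of_nonneg_right hκ1 hfpos.le
      linarith
    obtain ⟨v, hv, x, hvx, hxu⟩ := h2
    have h3 := hd2 v (hFF1 hv) x hvx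
    have h4 : ((No D u).card : ℝ) ≤ 2 / p * (2 / p * (2 / p * a)) :=
      (hDM x u hxu).trans (mul_le_mul_of_nonneg_left h3 hc2.le)
    refine ⟨hlod u (h4.trans hch3), ?_⟩
    intro z huz
    apply hlod z
    rw [← hch4]
    exact (hDM u z huz).trans (mul_le_mul_of_nonneg_left h4 hc2.le)
  -- the cut
  set b : ℕ := m / q + 1 with hb
  have hbq : m ≤ b * q := by
    rw [hb]
    have h := Nat.lt_div_mul_add (a := m) hqpos
    rw [Nat.add_mul, one_mul]
    omega
  have hbm : (b : ℝ) * q ≤ 2 * m := by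
    have h1 : m / q * q ≤ m := Nat.div_mul_le_self _ _
    have h2 : ((m / q : ℕ) : ℝ) * q ≤ m := by exact_mod_cast h1
    rw [hb]
    push_cast
    linarith
  have hq1 : (1 : ℝ) ≤ q := by exact_mod_cast hqpos
  have hDE1 : ε + 2 * r ≤ p * κ ^ 2 := by
    have h1 : ε ≤ p * κ ^ 2 / 10 := by
      refine hεc.trans ?_
      rw [div_le_div_iff₀ (by positivity) (by norm_num)]
      have e1 : p ^ 2 * κ ^ 2 * 10 ≤ p * κ ^ 2 * 10 := by
        have := mul_le_mul_of_nonneg_right hpp (show (0 : ℝ) ≤ κ ^ 2 * 10 by positivity)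
        linarith
      have e2 : p * κ ^ 2 * 10 * 1 ≤ p * κ ^ 2 * 10 * q :=
        mul_le_mul_of_nonneg_left hq1 (by positivity)
      linarith
    have h2 : r ≤ p * κ ^ 2 / 40 := by
      rw [hr]
      have := mul_le_mul_of_nonneg_right hpp (show (0 : ℝ) ≤ κ ^ 2 by positivity)
      linarith
    have h3 : 0 < p * κ ^ 2 := by positivity
    linarith
  have hDE2 : 2 * (q * (ε₃ * (m : ℝ) ^ 2)) + 4 / p * (b * m) + 1 / p * (q * (ε * m ^ 2)) +
      4 / p * (r * m * m) ≤ p / 2 * κ ^ 2 * m ^ 2 := by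
    set Y : ℝ := p * κ ^ 2 * m ^ 2 with hY
    have hY0 : 0 < Y := by positivity
    have h1 : 2 * (q * (ε₃ * (m : ℝ) ^ 2)) ≤ 1 / 10 * Y := by
      have e1 : q * ε₃ ≤ p * κ ^ 2 / 20 := by
        have := mul_le_mul_of_nonneg_left hε3a hq0.le
        have e : (q : ℝ) * (p * κ ^ 2 / (20 * q)) = p * κ ^ 2 / 20 := by
          field_simp
        linarith
      have e2 := mul_le_mul_of_nonneg_right e1 (show (0 : ℝ) ≤ 2 * (m : ℝ) ^ 2 by positivity)
      have e3 : p * κ ^ 2 / 20 * (2 * (m : ℝ) ^ 2) = 1 / 10 * Y := by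
        rw [hY]
        ring
      linarith
    have h2 : 4 / p * (b * (m : ℝ)) ≤ 1 / 10 * Y := by
      have e1 : (b : ℝ) * 80 ≤ b * (q * (p ^ 2 * κ ^ 2)) :=
        mul_le_mul_of_nonneg_left hq'.le (Nat.cast_nonneg _)
      have e2 : (b : ℝ) * (q * (p ^ 2 * κ ^ 2)) = (b * q) * (p ^ 2 * κ ^ 2) := by ring
      have e3 : ((b : ℝ) * q) * (p ^ 2 * κ ^ 2) ≤ (2 * m) * (p ^ 2 * κ ^ 2) :=
        mul_le_mul_of_nonneg_right hbm (by positivity)
      have e4 : (b : ℝ) ≤ p ^ 2 * κ ^ 2 / 40 * m := by linarith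
      have e5 := mul_le_mul_of_nonneg_right e4 (show (0 : ℝ) ≤ 4 / p * m by positivity)
      have e6 : p ^ 2 * κ ^ 2 / 40 * (m : ℝ) * (4 / p * m) = 1 / 10 * Y := by
        rw [hY]
        field_simp
        ring
      linarith
    have h3 : 1 / p * (q * (ε * (m : ℝ) ^ 2)) ≤ 1 / 10 * Y := by
      have e1 : q * ε ≤ p ^ 2 * κ ^ 2 / 10 := by
        have := mul_le_mul_of_nonneg_left hεc hq0.le
        have e : (q : ℝ) * (p ^ 2 * κ ^ 2 / (10 * q)) = p ^ 2 * κ ^ 2 / 10 := by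
          field_simp
        linarith
      have e2 := mul_le_mul_of_nonneg_right e1 (show (0 : ℝ) ≤ 1 / p * (m : ℝ) ^ 2 by positivity)
      have e3 : p ^ 2 * κ ^ 2 / 10 * (1 / p * (m : ℝ) ^ 2) = 1 / 10 * Y := by
        rw [hY]
        field_simp
      linarith
    have h4 : 4 / p * (r * m * (m : ℝ)) = 1 / 10 * Y := by
      rw [hY, hr]
      field_simp
      norm_num
    have h5 : p / 2 * κ ^ 2 * (m : ℝ) ^ 2 = 1 / 2 * Y := by
      rw [hY]
      ring
    linarith
  obtain ⟨t, htm, hcut, hhi⟩ := stepDEw hG has hw hp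
    (by linarith : p ≤ Q) hp1 hQ2 hJ hε0.le m hm0m hmn hκ0 hr0 lo hNorm X hX hU b q
    (by rw [hb]; exact Nat.le_add_left 1 _) hbq hDE1 hDE2 hκm
  -- averages
  have hsumR := sum_Rs_gew hG m r κ hκ0.le F X (by
    intro z hz A hA hA2
    refine le_trans ?_ (hzF z hz)
    have : A ⊆ F.filter (fun v => ¬ ∃ x, D v x ∧ D x z) := by
      intro v hv
      exact mem_filter.2 ⟨hA hv, hA2 v hv⟩
    exact_mod_cast card_le_card this)
  have hsumN := sum_No_lew hG has (ρ := ρs) (σ := 2 * ε / p * m) (κ' := 2 * (κ * m)) hw hp hQ0 hJU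
    hε0.le m τ t hm0m hτm htm lo F X (fun v hv => (hF1 v (hFF1 hv)).1)
    (fun v hv => hF1lo v (hFF1 hv)) (fun v hv => hF1N v (hFF1 hv)) (fun x hx => (hX x hx).1) hNorm
    (fun v hv => stepB hG hw hQ0 hQ2 hp hp1 hJ hε0.le ha0.le hR m hm0m hmn hmor v
      (hF1 v (hFF1 hv)).2.2)
    (fun x hx1 hx2 hxX => hXF x (by simp only [Lw, mem_filter, mem_univ, true_and]; exact ⟨hx1, hx2⟩)
      hxX) hρs0.le hhi
  set S : ℝ := ∑ v ∈ F, ((No D v).card : ℝ) with hS
  set W : ℝ := ((X.filter (fun x => t ≤ T x)).card : ℝ) with hW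
  set u : ℝ := ((Us D T m r X).card : ℝ) with hu
  have ht0 : (0 : ℝ) ≤ t := Nat.cast_nonneg _
  have htm' : (t : ℝ) ≤ m := by exact_mod_cast htm
  have hSlow : f * (p ^ 2 / 50 * a) ≤ S := by
    rw [hS, hf]
    have : ∀ v ∈ F, p ^ 2 / 50 * a ≤ ((No D v).card : ℝ) := fun v hv => (hF1 v (hFF1 hv)).2.1
    have := sum_le_sum this
    rwa [sum_const, nsmul_eq_mul] at this
  have hRS : ∑ v ∈ F, ((Rs D v).card : ℝ) ≤ (2 / P - θ) * S := by
    rw [hS, mul_sum]
    exact sum_le_sum (fun v _ => (hcon v).le)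
  -- |F| ≥ γ m
  have hfγ : γ * m ≤ f := by
    have h1 : p ^ 2 / 20 * η / K * m ≤ F1.card := by
      refine le_trans ?_ hF1c
      have e1 : p ^ 2 / 20 * η / K * m ≤ p ^ 2 / 20 * η / K * (K * a) :=
        mul_le_mul_of_nonneg_left hma (by positivity)
      have e2 : p ^ 2 / 20 * η / K * (K * a) = p ^ 2 / 20 * τ := by
        rw [hτa]
        field_simp
      linarith
    have h2 := mul_le_mul_of_nonneg_left h1 (show (0 : ℝ) ≤ κ ^ N by positivity)
    rw [hγ]
    calc κ ^ N * (p ^ 2 / 20 * η / K) * m = κ ^ N * (p ^ 2 / 20 * η / K * m) := by ring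
      _ ≤ κ ^ N * F1.card := h2
      _ ≤ f := hFc
  -- error terms, in units of E = κ m f
  set E : ℝ := κ * m * f with hE
  have hE0 : 0 < E := mul_pos (by linarith) hfpos
  have h2P0 : 0 < 2 / P := by positivity
  have herr1 : 2 / P * (f * (2 * ε / p * m)) ≤ E := by
    have h1 : 2 / P * (f * (2 * ε / p * m)) ≤ 2 / p * (f * (2 * ε / p * m)) :=
      mul_le_mul_of_nonneg_right h2P (mul_nonneg hfpos.le (by positivity))
    have h2 : 4 * ε / p ^ 2 ≤ κ := by
      rw [div_le_iff₀ (by positivity)]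
      linarith
    have h3 : 2 / p * (f * (2 * ε / p * m)) = 4 * ε / p ^ 2 * (m * f) := by
      field_simp
      ring
    have h4 : 4 * ε / p ^ 2 * (m * f) ≤ κ * (m * f) :=
      mul_le_mul_of_nonneg_right h2 (mul_nonneg hmpos.le hfpos.le)
    have h5 : κ * (m * f) = E := by
      rw [hE]
      ring
    linarith
  have herr2 : 2 / P * (f * (ρs * m)) ≤ E := by
    have h1 : 2 / P * (f * (ρs * m)) ≤ 2 / p * (f * (ρs * m)) :=
      mul_le_mul_of_nonneg_right h2P (mul_nonneg hfpos.le (mul_nonneg hρs0.le hmpos.le))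
    have h2 : 2 / p * (f * (ρs * m)) = E := by
      rw [hρs, hE]
      field_simp
    linarith
  have herr3 : 2 / P * (f * τ) ≤ f * (θ * p ^ 2 / 200 * a) := by
    have h1 : 2 / P * (f * τ) ≤ 2 / p * (f * τ) :=
      mul_le_mul_of_nonneg_right h2P (mul_nonneg hfpos.le hτpos.le)
    have h2 : 2 / p * (f * (τ : ℝ)) = f * (θ * p ^ 2 / 200 * a) := by
      rw [hτa, hη]
      field_simp
      ring
    linarith
  have herr4 : 2 / P * (f * (Q / p * (2 * (κ * m)))) ≤ 8 / p ^ 2 * E := by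
    have h1 : 2 / P * (f * (Q / p * (2 * (κ * m)))) ≤ 2 / p * (f * (2 / p * (2 * (κ * m)))) := by
      apply mul_le_mul h2P _ _ hc2.le
      · apply mul_le_mul_of_nonneg_left _ hfpos.le
        apply mul_le_mul_of_nonneg_right _ (by linarith)
        exact div_le_div_of_nonneg_right hQ2 hp.le
      · apply mul_nonneg hfpos.le
        apply mul_nonneg (by positivity)
        linarith
    have h2 : 2 / p * (f * (2 / p * (2 * (κ * m)))) = 8 / p ^ 2 * E := by
      rw [hE]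
      field_simp
      ring
    linarith
  have herr5 : 2 / P * (ε * (m : ℝ) ^ 2) ≤ E := by
    have h1 : 2 / P * (ε * (m : ℝ) ^ 2) ≤ 2 / p * (ε * (m : ℝ) ^ 2) :=
      mul_le_mul_of_nonneg_right h2P (by positivity)
    have h2 : 2 * ε / p ≤ γ * κ := by
      rw [div_le_iff₀ hp]
      have : 0 < p * γ * κ := by positivity
      linarith
    have h3 : 2 / p * (ε * (m : ℝ) ^ 2) = 2 * ε / p * (m * m) := by
      field_simp
    have h4 : 2 * ε / p * ((m : ℝ) * m) ≤ γ * κ * (m * m) :=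
      mul_le_mul_of_nonneg_right h2 (by positivity)
    have h5 : γ * κ * ((m : ℝ) * m) = κ * m * (γ * m) := by ring
    have h6 : κ * m * (γ * m) ≤ E := mul_le_mul_of_nonneg_left hfγ (by linarith)
    linarith
  have herr6 : 2 / P * (Q / 2 * (ε₃ * (m : ℝ) ^ 2)) ≤ E := by
    have h1 : 2 / P * (Q / 2 * (ε₃ * (m : ℝ) ^ 2)) ≤ 2 / p * (1 * (ε₃ * (m : ℝ) ^ 2)) := by
      apply mul_le_mul h2P _ (by positivity) hc2.le
      apply mul_le_mul_of_nonneg_right _ (by positivity)
      linarith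
    have h2 : 2 * ε₃ / p ≤ γ * κ := by
      rw [div_le_iff₀ hp]
      have : 0 < p * γ * κ := by positivity
      linarith
    have h3 : 2 / p * (1 * (ε₃ * (m : ℝ) ^ 2)) = 2 * ε₃ / p * (m * m) := by
      field_simp
    have h4 : 2 * ε₃ / p * ((m : ℝ) * m) ≤ γ * κ * (m * m) :=
      mul_le_mul_of_nonneg_right h2 (by positivity)
    have h5 : γ * κ * ((m : ℝ) * m) = κ * m * (γ * m) := by ring
    have h6 : κ * m * (γ * m) ≤ E := mul_le_mul_of_nonneg_left hfγ (by linarith)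
    linarith
  -- main term
  have hmain : 2 / P * (f * (P * W + Q / 2 * t)) ≤ f * (2 * W + t) + E := by
    have h1 : 2 / P * (f * (P * W + Q / 2 * t)) = f * (2 * W + t) + f * (δ / P * t) := by
      rw [hQ]
      field_simp
      ring
    have h2 : δ / P ≤ κ := by
      rw [div_le_iff₀ hP0, hδ]
      have := mul_le_mul_of_nonneg_right hpP hκ0.le
      linarith
    have h3 : δ / P * t ≤ κ * m := mul_le_mul h2 htm' ht0 hκ0.le
    have h4 := mul_le_mul_of_nonneg_left h3 hfpos.le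
    have h5 : f * (κ * m) = E := by
      rw [hE]
      ring
    linarith
  have hS2 : 2 / P * S ≤ f * (2 * W + t) + 5 * E + 8 / p ^ 2 * E + f * (θ * p ^ 2 / 200 * a) := by
    have h1 := mul_le_mul_of_nonneg_left hsumN h2P0.le
    have h2 : 2 / P * (f * (P * W + Q / 2 * t) + f * (2 * ε / p * m + ρs * m + τ +
        Q / p * (2 * (κ * m))) + ε * (m : ℝ) ^ 2 + Q / 2 * (ε₃ * (m : ℝ) ^ 2)) =
        2 / P * (f * (P * W + Q / 2 * t)) + 2 / P * (f * (2 * ε / p * m)) +
        2 / P * (f * (ρs * m)) + 2 / P * (f * τ) + 2 / P * (f * (Q / p * (2 * (κ * m)))) +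
        2 / P * (ε * (m : ℝ) ^ 2) + 2 / P * (Q / 2 * (ε₃ * (m : ℝ) ^ 2)) := by
      ring
    rw [h2] at h1
    linarith
  have hcut2 : f * (2 * W + t) ≤ f * (u + 8 * (κ * m)) := mul_le_mul_of_nonneg_left hcut hfpos.le
  have h1p : 1 ≤ 1 / p ^ 2 := by
    rw [le_div_iff₀ (by positivity)]
    linarith
  have hfin : θ * S ≤ 22 * (1 / p ^ 2 * E) + f * (θ * p ^ 2 / 200 * a) := by
    have e1 : θ * S = 2 / P * S - (2 / P - θ) * S := by ring
    have e2 : f * (u + 8 * (κ * m)) = f * u + 8 * E := by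
      rw [hE]
      ring
    have e3 : κ * f * (m : ℝ) = E := by
      rw [hE]
      ring
    have e4 : 8 / p ^ 2 * E = 8 * (1 / p ^ 2 * E) := by ring
    have e5 : 1 * E ≤ 1 / p ^ 2 * E := mul_le_mul_of_nonneg_right h1p hE0.le
    rw [e1]
    rw [e2] at hcut2
    rw [e3] at hsumR
    rw [e4] at hS2
    linarith
  have hθS : θ * (f * (p ^ 2 / 50 * a)) ≤ θ * S := mul_le_mul_of_nonneg_left hSlow hθ.le
  have hκK : 1 / p ^ 2 * E ≤ 1 / 2000 * (f * (θ * p ^ 2 * a)) := by
    have h1 : κ * m ≤ κ * (K * a) := mul_le_mul_of_nonneg_left hma hκ0.le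
    have h2 : κ * (K * a) = θ * p ^ 4 / 2000 * a := by
      rw [hκ]
      field_simp
    have h3 : E ≤ θ * p ^ 4 / 2000 * a * f := by
      rw [← h2, hE]
      exact mul_le_mul_of_nonneg_right h1 hfpos.le
    have h4 : 1 / p ^ 2 * E ≤ 1 / p ^ 2 * (θ * p ^ 4 / 2000 * a * f) :=
      mul_le_mul_of_nonneg_left h3 (by positivity)
    have h5 : 1 / p ^ 2 * (θ * p ^ 4 / 2000 * a * f) = 1 / 2000 * (f * (θ * p ^ 2 * a)) := by
      field_simp
    linarith
  have hpos : 0 < f * (θ * p ^ 2 * a) :=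
    mul_pos hfpos (mul_pos (mul_pos hθ (by positivity)) ha0)
  have g1 : θ * (f * (p ^ 2 / 50 * a)) = 1 / 50 * (f * (θ * p ^ 2 * a)) := by ring
  have g2 : f * (θ * p ^ 2 / 200 * a) = 1 / 200 * (f * (θ * p ^ 2 * a)) := by ring
  linarith

end Pool.Agent.Helper76.SNW
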