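import Pool.Agent.Helper76.SNW.Final

/-!
# The deterministic theorem for orientations of a graph with controlled densities
-/

namespace Pool.Agent.Helper76.SNW

open Finset Pool.Agent.Helper76.SNC

open Classical in
/-- The deterministic theorem, for graphs and their orientations. -/
theorem bidense_graph {p P θ : ℝ} (hp : 0 < p) (hpP : p ≤ P) (hP1 : P ≤ 1) (hθ : 0 < θ) :
    ∃ ε C : ℝ, 0 < ε ∧ 0 < C ∧ ∀ (V : Type) [Fintype V] [Nonempty V] (G : SimpleGraph V) (m : ℝ),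
      1 ≤ m →
      (∀ A B : Finset V,
        p * A.card * B.card - ε * (max (max (A.card : ℝ) B.card) m) ^ 2 ≤
          ∑ a ∈ A, ∑ b ∈ B, (if G.Adj a b then (1 : ℝ) else 0) ∧
        ∑ a ∈ A, ∑ b ∈ B, (if G.Adj a b then (1 : ℝ) else 0) ≤
          P * A.card * B.card + ε * (max (max (A.card : ℝ) B.card) m) ^ 2) →
      ∀ D : V → V → Prop, (∀ u v, G.Adj u v ↔ (D u v ∨ D v u)) → (∀ u v, D u v → ¬ D v u) →
        (∀ v, C * m ≤ ({w | D v w}.ncard : ℝ)) →
        ∃ v, ((2 - P) / P - θ) * ({w | D v w}.ncard : ℝ) ≤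
          ({w | w ≠ v ∧ ¬ D v w ∧ ∃ u, D v u ∧ D u w}.ncard : ℝ) := by
  obtain ⟨ε, C, hε, hC, h⟩ := deterministicB hp hpP hP1 hθ
  refine ⟨ε, C, hε, hC, ?_⟩
  intro V _ _ G m hm hJ D hor has hd
  have hP0 : 0 < P := lt_of_lt_of_le hp hpP
  have hsum : ∀ A B : Finset V, ∑ v ∈ A, ∑ x ∈ B, dg D v x =
      ∑ a ∈ A, ∑ b ∈ B, (if G.Adj a b then (1 : ℝ) else 0) := by
    intro A B
    apply sum_congr rfl
    intro a _
    apply sum_congr rfl
    intro b _
    exact dg_eq hor has a b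
  obtain ⟨v, hv⟩ := h V D has m hm (by
      intro A B
      rw [hsum]
      exact (hJ A B).1) (by
      intro A B
      rw [hsum]
      exact (hJ A B).2) (by
      intro v
      rw [← ncard_No]
      exact hd v)
  refine ⟨v, ?_⟩
  have h1 := ncard_out2 has v
  have h2 : ((No D v).card : ℝ) + ({w | w ≠ v ∧ ¬ D v w ∧ ∃ u, D v u ∧ D u w}.ncard : ℝ) =
      (Rs D v).card := by exact_mod_cast h1
  rw [ncard_No]
  have h3 : (2 - P) / P = 2 / P - 1 := by
    field_simp
  rw [h3]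
  linarith

end Pool.Agent.Helper76.SNW
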