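import Pool.Agent.Helper76.SNC.Graph
import Pool.Agent.Helper76.SNW.StepAB
import Pool.Agent.Helper36.SNReg
import Pool.Agent.Helper25.SNMulti

/-!
# Normalising weights at all degree scales
-/

namespace Pool.Agent.Helper76.SNW

open Finset Pool.Agent.Helper76.SNC

set_option linter.unusedSectionVars false

/-- the underlying graph -/
def gr {V : Type*} (D : V → V → Prop) (has : ∀ u v, D u v → ¬ D v u) : SimpleGraph V where
  Adj u v := D u v ∨ D v u
  symm := ⟨fun _ _ h => h.symm⟩
  loopless := ⟨fun v h => by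
    rcases h with h | h <;> exact has v v h h⟩

/-- the level of a vertex -/
noncomputable def lev {V : Type*} [Fintype V] (D : V → V → Prop) (v : V) : ℕ :=
  Nat.log 2 (No D v).card

lemma card_lt_of_lev {V : Type*} [Fintype V] {D : V → V → Prop} {v : V} {l : ℕ}
    (h : lev D v ≤ l) : (No D v).card < 2 ^ (l + 1) := by
  apply Nat.lt_pow_of_log_lt (by norm_num)
  unfold lev at h
  omega

open Classical in
/-- few vertices of small level -/
lemma card_lev_le {V : Type*} [Fintype V] [DecidableEq V] {D : V → V → Prop}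
    {p ε m0 C : ℝ} (hp : 0 < p) (hp1 : p ≤ 1) (hJ : JL D p ε m0) (hε : 0 ≤ ε) (hε1 : ε ≤ p / 2)
    (hm0 : 0 < m0) (hC : 1 ≤ C) (hd : ∀ v, C * m0 ≤ (No D v).card) (l : ℕ) :
    (((univ : Finset V).filter (fun v => lev D v ≤ l)).card : ℝ) ≤ 8 / p * 2 ^ l := by
  set S := (univ : Finset V).filter (fun v => lev D v ≤ l) with hS
  have h8 : 0 ≤ 8 / p * (2 : ℝ) ^ l := by positivity
  rcases S.eq_empty_or_nonempty with h0 | h0
  · rw [h0]
    simpa using h8
  obtain ⟨v0, hv0⟩ := h0
  have hlt : ∀ v ∈ S, ((No D v).card : ℝ) ≤ 2 * 2 ^ l := by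
    intro v hv
    have h1 := card_lt_of_lev (mem_filter.1 hv).2
    have h2 : (No D v).card ≤ 2 * 2 ^ l := by
      rw [pow_succ] at h1
      omega
    exact_mod_cast h2
  have h8' : 8 * (2 : ℝ) ^ l ≤ 8 / p * 2 ^ l := by
    have : (8 : ℝ) ≤ 8 / p := by
      rw [le_div_iff₀ hp]
      linarith
    exact mul_le_mul_of_nonneg_right this (by positivity)
  rcases lt_or_ge (S.card : ℝ) m0 with h | h
  · have h1 := hd v0
    have h2 := hlt v0 hv0
    have h3 : 1 * m0 ≤ C * m0 := mul_le_mul_of_nonneg_right hC hm0.le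
    have h4 : (0 : ℝ) < 2 ^ l := by positivity
    linarith
  · have h1 := hJ.le hε h S S le_rfl le_rfl
    have h2 : ∑ v ∈ S, ∑ x ∈ S, dg D v x = 2 * ∑ v ∈ S, ∑ x ∈ S, ar D v x := by
      have : ∑ v ∈ S, ∑ x ∈ S, ar D x v = ∑ v ∈ S, ∑ x ∈ S, ar D v x := sum_comm
      unfold dg
      simp only [sum_add_distrib]
      rw [this]
      ring
    have h3 : ∑ v ∈ S, ∑ x ∈ S, ar D v x ≤ S.card * (2 * 2 ^ l) := by
      have : ∀ v ∈ S, ∑ x ∈ S, ar D v x ≤ 2 * 2 ^ l := by
        intro v hv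
        refine le_trans ?_ (hlt v hv)
        rw [← sum_ar_univ]
        exact sum_le_sum_of_subset_of_nonneg (subset_univ _) (fun x _ _ => ar_nonneg D v x)
      have := sum_le_sum this
      rwa [sum_const, nsmul_eq_mul] at this
    have hc : (0 : ℝ) < S.card := lt_of_lt_of_le hm0 h
    have h4 : (S.card : ℝ) * (p / 2 * S.card) ≤ S.card * (4 * 2 ^ l) := by
      have h5 : ε * (S.card : ℝ) ^ 2 ≤ p / 2 * (S.card : ℝ) ^ 2 :=
        mul_le_mul_of_nonneg_right hε1 (by positivity)
      nlinarith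
    have h5 : p / 2 * (S.card : ℝ) ≤ 4 * 2 ^ l := le_of_mul_le_mul_left h4 hc
    have h6 : 8 / p * (2 : ℝ) ^ l = (4 * 2 ^ l) / (p / 2) := by
      field_simp
      ring
    rw [h6, le_div_iff₀ (by positivity)]
    linarith

open Classical in
theorem exists_weights {p P δ c : ℝ} (hp : 0 < p) (hpP : p ≤ P) (hP1 : P ≤ 1) (hδ : 0 < δ)
    (hc : 0 < c) :
    ∃ ε1 C1 : ℝ, 0 < ε1 ∧ 1 ≤ C1 ∧ ∀ (V : Type) [Fintype V] [DecidableEq V]
      (D : V → V → Prop) (_ : ∀ u v, D u v → ¬ D v u) (ε C m0 : ℝ) (_ : 0 ≤ ε) (_ : ε ≤ ε1)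
      (_ : C1 ≤ C) (_ : 1 ≤ m0) (_ : JL D p ε m0) (_ : JU D P ε m0)
      (_ : ∀ v, C * m0 ≤ (No D v).card),
      ∃ w : V → V → ℝ, Wts w p (P + δ) ∧ ∀ (L : ℕ) (A B : Finset V),
        (∀ a ∈ A, lev D a ≤ L) → (∀ b ∈ B, lev D b ≤ L) →
        |∑ a ∈ A, ∑ b ∈ B, (w a b * dg D a b - 1)| ≤ 3 * c * 4 ^ L := by
  have hp1 : p ≤ 1 := hpP.trans hP1
  have hP0 : 0 < P := lt_of_lt_of_le hp hpP
  set e : ℝ := c * p ^ 2 / 64 with he
  have he0 : 0 < e := by positivity
  obtain ⟨M0, e0, he00, hnorm⟩ := Pool.Agent.Helper36.SNReg.normalise p P δ e hp hpP hδ he0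
  set σ : ℝ := min 1 (p * c / 2) with hσ
  have hσ0 : 0 < σ := lt_min one_pos (by positivity)
  have hσ1 : σ ≤ 1 := min_le_left _ _
  have hσ2 : σ ≤ p * c / 2 := min_le_right _ _
  refine ⟨min e0 (p / 2), 2 * (M0 + 1) / σ, lt_min he00 (by positivity), ?_, ?_⟩
  · rw [le_div_iff₀ hσ0]
    have : (0 : ℝ) ≤ M0 := Nat.cast_nonneg _
    linarith
  intro V _ _ D has ε C m0 hε hεe hC hm0 hJL hJU hd
  have hεe0 : ε ≤ e0 := hεe.trans (min_le_left _ _)
  have hεp : ε ≤ p / 2 := hεe.trans (min_le_right _ _)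
  have hC1 : 1 ≤ C := by
    refine le_trans ?_ hC
    rw [le_div_iff₀ hσ0]
    have : (0 : ℝ) ≤ M0 := Nat.cast_nonneg _
    linarith
  have hQ : 1 / (P + δ) ≤ 2 / p := by
    rw [div_le_div_iff₀ (by positivity) hp]
    linarith
  obtain ⟨w, hs, hb, hw⟩ := Pool.Agent.Helper25.SNMulti.multiscale (dg D) (lev D) (1 / (P + δ))
    (2 / p) c hc.le (by
    intro l
    set S := (univ : Finset V).filter (fun v => lev D v ≤ l) with hS
    have hSc : (S.card : ℝ) ≤ 8 / p * 2 ^ l :=
      card_lev_le hp hp1 hJL hε hεp (by linarith) hC1 hd l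
    have hsub : ∀ A : Finset V, (∀ a ∈ A, lev D a ≤ l) → A ⊆ S := by
      intro A hA a ha
      rw [hS, mem_filter]
      exact ⟨mem_univ _, hA a ha⟩
    have h24 : ((2 : ℝ) ^ l) ^ 2 = 4 ^ l := by
      rw [← pow_mul, mul_comm, pow_mul]
      norm_num
    rcases S.eq_empty_or_nonempty with h0 | h0
    · refine ⟨fun _ _ => 1 / (P + δ), fun _ _ => rfl, fun _ _ => ⟨le_rfl, hQ⟩, ?_⟩
      intro A B hA _
      have : A = ∅ := by
        have := hsub A hA
        rw [h0] at this
        exact subset_empty.1 this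
      subst this
      simp only [sum_empty, abs_zero]
      positivity
    obtain ⟨v0, hv0⟩ := h0
    rcases lt_or_ge (S.card : ℝ) (σ * 2 ^ l) with h | h
    · -- small level set
      refine ⟨fun _ _ => 1 / (P + δ), fun _ _ => rfl, fun _ _ => ⟨le_rfl, hQ⟩, ?_⟩
      intro A B hA hB
      have hAc : (A.card : ℝ) ≤ S.card := by exact_mod_cast card_le_card (hsub A hA)
      have hBc : (B.card : ℝ) ≤ S.card := by exact_mod_cast card_le_card (hsub B hB)
      have h1 : ∀ a b, |1 / (P + δ) * dg D a b - 1| ≤ 2 / p := by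
        intro a b
        have g1 := dg_nonneg D a b
        have g2 := dg_le_one has a b
        have g3 : 0 ≤ 1 / (P + δ) * dg D a b := by positivity
        have g4 : 1 / (P + δ) * dg D a b ≤ 1 / (P + δ) * 1 :=
          mul_le_mul_of_nonneg_left g2 (by positivity)
        have g5 : 1 ≤ 2 / p := by
          rw [le_div_iff₀ hp]
          linarith
        rw [abs_le]
        constructor
        · linarith
        · linarith
      have h2 : |∑ a ∈ A, ∑ b ∈ B, (1 / (P + δ) * dg D a b - 1)| ≤ A.card * (B.card * (2 / p)) := by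
        refine (abs_sum_le_sum_abs _ _).trans ?_
        have : ∀ a ∈ A, |∑ b ∈ B, (1 / (P + δ) * dg D a b - 1)| ≤ B.card * (2 / p) := by
          intro a _
          refine (abs_sum_le_sum_abs _ _).trans ?_
          have := sum_le_sum (fun b (_ : b ∈ B) => h1 a b)
          rwa [sum_const, nsmul_eq_mul] at this
        have := sum_le_sum this
        rwa [sum_const, nsmul_eq_mul] at this
      refine h2.trans ?_
      have h3 : (A.card : ℝ) * (B.card * (2 / p)) ≤ (σ * 2 ^ l) * ((σ * 2 ^ l) * (2 / p)) := by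
        apply mul_le_mul (by linarith) _ (by positivity) (by positivity)
        exact mul_le_mul_of_nonneg_right (by linarith) (by positivity)
      refine h3.trans ?_
      have h4 : (σ * (2 : ℝ) ^ l) * ((σ * 2 ^ l) * (2 / p)) = (σ * σ * (2 / p)) * 4 ^ l := by
        rw [← h24]
        ring
      rw [h4]
      apply mul_le_mul_of_nonneg_right _ (by positivity)
      have h5 : σ * σ ≤ 1 * (p * c / 2) := mul_le_mul hσ1 hσ2 hσ0.le (by norm_num)
      have h6 : σ * σ * (2 / p) ≤ (1 * (p * c / 2)) * (2 / p) :=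
        mul_le_mul_of_nonneg_right h5 (by positivity)
      have h7 : (1 * (p * c / 2)) * (2 / p) = c := by
        field_simp
      linarith
    · -- large level set
      have hbig : C * m0 ≤ 2 * 2 ^ l := by
        have h1 := hd v0
        have h2 := card_lt_of_lev (mem_filter.1 hv0).2
        have h3 : (No D v0).card ≤ 2 * 2 ^ l := by
          rw [pow_succ] at h2
          omega
        have h4 : ((No D v0).card : ℝ) ≤ 2 * 2 ^ l := by exact_mod_cast h3
        linarith
      have hSbig : ((M0 : ℝ) + 1) * m0 ≤ S.card := by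
        refine le_trans ?_ h
        have h1 : 2 * ((M0 : ℝ) + 1) ≤ σ * C := by
          have := mul_le_mul_of_nonneg_left hC hσ0.le
          have e1 : σ * (2 * ((M0 : ℝ) + 1) / σ) = 2 * ((M0 : ℝ) + 1) := by
            field_simp
          linarith
        have h2 : 2 * ((M0 : ℝ) + 1) * m0 ≤ σ * C * m0 :=
          mul_le_mul_of_nonneg_right h1 (by linarith)
        have h3 : σ * (C * m0) ≤ σ * (2 * 2 ^ l) := mul_le_mul_of_nonneg_left hbig hσ0.le
        linarith
      have hM0 : (0 : ℝ) ≤ M0 := Nat.cast_nonneg _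
      have hm0S : m0 ≤ S.card := by
        have : 0 ≤ (M0 : ℝ) * m0 := by positivity
        linarith
      have hM0S : M0 ≤ S.card := by
        have h1 : (M0 : ℝ) ≤ S.card := by
          have : ((M0 : ℝ) + 1) * 1 ≤ ((M0 : ℝ) + 1) * m0 :=
            mul_le_mul_of_nonneg_left hm0 (by positivity)
          linarith
        exact_mod_cast h1
      have hdge : ∀ a b, dg D a b = if (gr D has).Adj a b then (1 : ℝ) else 0 := by
        intro a b
        exact dg_eq (G := gr D has) (fun u v => Iff.rfl) has a b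
      obtain ⟨w, hw1, hw2, hw3⟩ := hnorm V (gr D has) S hM0S (by
        intro A B hA hB
        have hAc : (A.card : ℝ) ≤ S.card := by exact_mod_cast card_le_card hA
        have hBc : (B.card : ℝ) ≤ S.card := by exact_mod_cast card_le_card hB
        have k1 := hJL.le hε hm0S A B hAc hBc
        have k2 := hJU.le hε hm0S A B hAc hBc
        simp only [hdge] at k1 k2
        have k3 : ε * (S.card : ℝ) ^ 2 ≤ e0 * (S.card : ℝ) ^ 2 :=
          mul_le_mul_of_nonneg_right hεe0 (by positivity)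
        exact ⟨by linarith, by linarith⟩)
      refine ⟨w, hw1, hw2, ?_⟩
      intro A B hA hB
      have h1 := hw3 A B (hsub A hA) (hsub B hB)
      simp only [← hdge] at h1
      refine h1.trans ?_
      have h2 : (S.card : ℝ) ^ 2 ≤ (8 / p * 2 ^ l) ^ 2 :=
        pow_le_pow_left₀ (Nat.cast_nonneg _) hSc 2
      have h3 : e * (S.card : ℝ) ^ 2 ≤ e * (8 / p * 2 ^ l) ^ 2 :=
        mul_le_mul_of_nonneg_left h2 he0.le
      have h4 : e * (8 / p * (2 : ℝ) ^ l) ^ 2 = c * 4 ^ l := by
        rw [← h24, he]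
        field_simp
        ring
      linarith)
  exact ⟨w, ⟨hs, fun u v => (hb u v).1, fun u v => (hb u v).2⟩, hw⟩

end Pool.Agent.Helper76.SNW
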